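import Mathlib

namespace Pool.Agent.H20R3.MG

open Cardinal

universe u

/-- Index set for positions `t ∈ (0,1]`. -/
abbrev T := Set.Ioc (0 : ℝ) 1

/-- Index set of the generators of the Hartman-Mycielski part of a gadget. -/
abbrev I := ℕ × T

/-- The underlying group of all gadgets. -/
abbrev F := ℤ × (I →₀ ℤ)

/-- Every element is joined to `0` by a path along which the seminorm is strictly smaller
than at the end (until the end is reached, up to null elements). -/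
def HasPaths {F : Type*} [AddCommGroup F] (N : F → ℝ) : Prop :=
  ∀ f : F, ∃ γ : ℝ → F, γ 0 = 0 ∧ γ 1 = f ∧
    (∀ s ∈ Set.Icc (0 : ℝ) 1, ∀ ε > 0, ∃ δ > 0, ∀ s' ∈ Set.Icc (0 : ℝ) 1,
      |s' - s| < δ → N (γ s' - γ s) < ε) ∧
    (∀ s ∈ Set.Icc (0 : ℝ) 1, N (γ s) < N f ∨ N (γ s - f) = 0)

/-- The conclusion of the problem. -/
def HasTop (G : Type*) [AddCommGroup G] : Prop :=
  ∃ τ : TopologicalSpace G, @IsTopologicalAddGroup G τ _ ∧ @T2Space G τ ∧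
    @TopologicalSpace.MetrizableSpace G τ ∧ @PathConnectedSpace G τ ∧
    ∀ (x : G) (U : Set G), @IsOpen G τ U → x ∈ U →
      ∃ V : Set G, @IsOpen G τ V ∧ x ∈ V ∧ @closure G τ V ⊆ U ∧
        @IsPathConnected G τ (@closure G τ V)

/-- A gadget with `d`, `n`. -/
def IsGadget (d : ℕ) (n : ℕ → ℕ) (N : AddGroupSeminorm F) (Z : F →+ ℤ) (C : F →+ (I →₀ ℤ)) :
    Prop :=
  HasPaths N ∧ (∀ f, N f = 0 → (d : ℤ) ∣ Z f ∧ ∀ i, (n i.1 : ℤ) ∣ C f i) ∧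
    (∀ f, (∀ i, (n i.1 : ℤ) ∣ C f i) → N f = 0 ∨ 1 / 4 ≤ N f) ∧ ∃ c, Z c = 1 ∧ C c = 0

/-- admissible types of gadgets -/
def Adm (d : ℕ) (n : ℕ → ℕ) : Prop :=
  (d = 0 ∧ ∀ k, n k = 0 ∨ k < n k) ∨ (1 ≤ d ∧ ∀ k, n k = d)

/-- The algebraic input: a generating system together with generic elements. -/
def HasSystem (G : Type u) [AddCommGroup G] : Prop :=
  ∃ (Λ : Type u) (_ : LinearOrder Λ) (d : Λ → ℕ) (n : Λ → ℕ → ℕ) (g : Λ → G) (x : Λ → I → G),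
    (∀ a, Adm (d a) (n a)) ∧ (∀ a, d a • g a = 0) ∧ (∀ a i, n a i.1 • x a i = 0) ∧
    AddSubgroup.closure (Set.range g) = ⊤ ∧
    ∀ (z : Λ →₀ ℤ) (c : Λ → I →₀ ℤ) (S : Finset Λ), (∀ a ∉ S, z a = 0 ∧ c a = 0) →
      (∑ a ∈ S, (z a • g a + (c a).sum fun i m => m • x a i)) = 0 →
      ∀ a i, ¬ (n a i.1 : ℤ) ∣ c a i →
        ∃ b, a < b ∧ (¬ (d b : ℤ) ∣ z b ∨ ∃ i, ¬ (n b i.1 : ℤ) ∣ c b i)

/-
Targets:

theorem glue (A):
theorem glue {G Λ F : Type*} [AddCommGroup G] [AddCommGroup F] (N : Λ → AddGroupSeminorm F)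
    (π : Λ → F →+ G) (δ : ℝ) (hδ : 0 < δ) (hpaths : ∀ a, HasPaths (N a))
    (hsurj : ∀ g : G, g ∈ ⨆ a, (π a).range)
    (hker : ∀ ξ : Λ →₀ F, (ξ.sum fun a f => π a f) = 0 →
      (∀ a, N a (ξ a) = 0) ∨ ∃ a, δ ≤ N a (ξ a))
    (hnull : ∀ a f, N a f = 0 → π a f = 0) : HasTop G

theorem (B) gadget_exists (d n) (h : Adm d n) : ∃ N Z C, IsGadget d n N Z C

theorem (C) generic:
theorem exists_generic {G : Type u} [AddCommGroup G] (Y : AddSubgroup G) (μ : Cardinal.{u})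
    (hμ : ℵ₀ ≤ μ) (hY : #Y ≤ μ) (d : ℕ)
    (hd : #(Set.range fun x : G => d • x) ≤ μ)
    (hm : ∀ m : ℕ, 1 ≤ m → m ∣ d → m ≠ d → μ < #(Set.range fun x : G => m • x)) (hd1 : d ≠ 1) (q : ℕ) :
    ∃ x : G, (d ≠ 0 → addOrderOf x = d) ∧ (d = 0 → addOrderOf x = 0 ∨ q < addOrderOf x) ∧
      ∀ m : ℤ, m • x ∈ Y → m • x = 0
-/

end Pool.Agent.H20R3.MG
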