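import Mathlib
import Pool.Agent.H20R3.MG.Defs

namespace Pool.Agent.H20R3.MG

open MeasureTheory Set

noncomputable section

/-- value group -/
abbrev E := ℕ →₀ ℤ

/-- value of `h` at `u`: the step function `∑ h_{(k,t)} 1_{u<t}` in every coordinate `k`. -/
def V (u : ℝ) : (I →₀ ℤ) →+ E :=
  Finsupp.liftAddHom (fun i : I => if u < (i.2 : ℝ) then Finsupp.singleAddHom i.1 else 0)

lemma V_single (u : ℝ) (i : I) (c : ℤ) :
    V u (Finsupp.single i c) = if u < (i.2 : ℝ) then Finsupp.single i.1 c else 0 := by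
  unfold V
  rw [Finsupp.liftAddHom_apply_single]
  split_ifs <;> simp

/-- the generator `e_{k,s}`, zero if `s ≤ 0`. -/
def gen (k : ℕ) (s : ℝ) : ℤ →+ (I →₀ ℤ) :=
  if hs : 0 < s then Finsupp.singleAddHom (k, ⟨min s 1, by
    refine ⟨lt_min hs one_pos, min_le_right _ _⟩⟩) else 0

lemma V_gen (u : ℝ) (hu : 0 ≤ u) (hu1 : u < 1) (k : ℕ) (s : ℝ) (c : ℤ) :
    V u (gen k s c) = if u < s then Finsupp.single k c else 0 := by
  unfold gen
  split_ifs with h1 h2 h2
  · simp only [Finsupp.singleAddHom_apply, V_single]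
    rw [if_pos]; exact lt_min h2 hu1
  · simp only [Finsupp.singleAddHom_apply, V_single]
    rw [if_neg]; intro h; exact h2 (lt_of_lt_of_le h (min_le_left _ _))
  · exfalso; linarith
  · simp

/-- truncation to `[0,s)` -/
def τ (s : ℝ) : (I →₀ ℤ) →+ (I →₀ ℤ) :=
  Finsupp.liftAddHom (fun i : I => gen i.1 (min (i.2 : ℝ) s))

lemma V_trunc (u s : ℝ) (hu : 0 ≤ u) (hu1 : u < 1) (h : I →₀ ℤ) :
    V u (τ s h) = if u < s then V u h else 0 := by
  induction h using Finsupp.induction_linear with
  | zero => simp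
  | add f g hf hg =>
    rw [map_add, map_add, hf, hg, map_add]
    split_ifs <;> simp
  | single i c =>
    unfold τ
    rw [Finsupp.liftAddHom_apply_single, V_gen u hu hu1, V_single]
    by_cases h1 : u < (i.2 : ℝ) <;> by_cases h2 : u < s <;> simp [h1, h2]

lemma τ_zero (h : I →₀ ℤ) : τ 0 h = 0 := by
  induction h using Finsupp.induction_linear with
  | zero => simp
  | add f g hf hg => rw [map_add, hf, hg, add_zero]
  | single i c =>
    unfold τ gen
    rw [Finsupp.liftAddHom_apply_single, dif_neg]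
    · simp
    · intro h; exact absurd (lt_of_lt_of_le h (min_le_right _ _)) (lt_irrefl _)

lemma τ_one (h : I →₀ ℤ) : τ 1 h = h := by
  induction h using Finsupp.induction_linear with
  | zero => simp
  | add f g hf hg => rw [map_add, hf, hg]
  | single i c =>
    unfold τ gen
    rw [Finsupp.liftAddHom_apply_single, dif_pos (lt_min i.2.2.1 one_pos)]
    simp only [Finsupp.singleAddHom_apply]
    congr 1
    ext
    · rfl
    · simp [i.2.2.2]

/-- full value -/
def val (u : ℝ) : F →+ ℤ × E :=
  (AddMonoidHom.fst ℤ (I →₀ ℤ)).prod ((V u).comp (AddMonoidHom.snd ℤ (I →₀ ℤ)))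

@[simp] lemma val_apply (u : ℝ) (f : F) : val u f = (f.1, V u f.2) := rfl

/-- A measurable bounded family of seminorms. -/
structure Rho (ρ : ℝ → ℤ × E → ℝ) (M : ℝ) : Prop where
  zero : ∀ u, ρ u 0 = 0
  neg : ∀ u x, ρ u (-x) = ρ u x
  add : ∀ u x y, ρ u (x + y) ≤ ρ u x + ρ u y
  bdd : ∀ u x, ρ u x ≤ M
  meas : ∀ x, Measurable fun u => ρ u x

namespace Rho

variable {ρ : ℝ → ℤ × E → ℝ} {M : ℝ} (R : Rho ρ M)
include R

lemma nonneg (u x) : 0 ≤ ρ u x := by
  have h := R.add u x (-x)
  rw [add_neg_cancel, R.zero, R.neg] at h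
  linarith

lemma Mnn : 0 ≤ M := le_trans (R.nonneg 0 0) (R.bdd 0 0)

lemma sub (u x y) : ρ u (x - y) ≤ ρ u x + ρ u y := by
  rw [sub_eq_add_neg]
  refine (R.add u x (-y)).trans ?_
  rw [R.neg]

lemma zsmul (u x) (z : ℤ) : ρ u (z • x) ≤ |z| * ρ u x := by
  have hn : ∀ n : ℕ, ρ u (n • x) ≤ n * ρ u x := by
    intro n
    induction n with
    | zero => simp [R.zero]
    | succ n ih =>
      rw [succ_nsmul]
      refine (R.add u _ _).trans ?_
      push_cast
      linarith
  have h1 : ((|z| : ℤ) : ℝ) = (z.natAbs : ℝ) := by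
    rw [Int.abs_eq_natAbs]; simp
  rw [h1]
  rcases Int.natAbs_eq z with h | h
  · have h2 : z • x = z.natAbs • x := by
      conv_lhs => rw [h]
      rw [natCast_zsmul]
    rw [h2]; exact hn _
  · have h2 : z • x = -(z.natAbs • x) := by
      conv_lhs => rw [h]
      rw [neg_smul, natCast_zsmul]
    rw [h2, R.neg]; exact hn _

end Rho

instance instMX : MeasurableSpace E := ⊤

instance : DiscreteMeasurableSpace E := ⟨fun _ => trivial⟩

instance : Countable E := inferInstance

example : DiscreteMeasurableSpace (ℤ × E) := inferInstance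

lemma measurable_V (h : I →₀ ℤ) : Measurable (fun u => V u h) := by
  induction h using Finsupp.induction_linear with
  | zero => simp only [map_zero]; exact measurable_const
  | add f g hf hg => simp only [map_add]; exact hf.add hg
  | single i c =>
    simp only [V_single]
    exact Measurable.ite measurableSet_Iio measurable_const measurable_const

lemma measurable_val (f : F) : Measurable (fun u => val u f) := by
  simp only [val_apply]
  exact measurable_const.prodMk (measurable_V _)

namespace Rho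

variable {ρ : ℝ → ℤ × E → ℝ} {M : ℝ} (R : Rho ρ M)
include R

lemma measurable_comp {g : ℝ → ℤ × E} (hg : Measurable g) : Measurable (fun u => ρ u (g u)) := by
  have h1 : Measurable (fun p : ℝ × (ℤ × E) => ρ p.1 p.2) :=
    measurable_from_prod_countable_left fun x => R.meas x
  exact h1.comp (measurable_id.prodMk hg)

lemma intervalIntegrable {g : ℝ → ℤ × E} (hg : Measurable g) (a b : ℝ) :
    IntervalIntegrable (fun u => ρ u (g u)) volume a b := by
  have h1 := R.measurable_comp hg
  rw [intervalIntegrable_iff]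
  refine Measure.integrableOn_of_bounded (M := M) ?_ h1.aestronglyMeasurable ?_
  · simp [Set.uIoc]
  · refine Filter.Eventually.of_forall fun u => ?_
    rw [Real.norm_of_nonneg (R.nonneg _ _)]
    exact R.bdd _ _

end Rho

/-- the seminorm as a function -/
def NN (ρ : ℝ → ℤ × E → ℝ) (f : F) : ℝ := ∫ u in (0 : ℝ)..1, ρ u (val u f)

namespace Rho

variable {ρ : ℝ → ℤ × E → ℝ} {M : ℝ} (R : Rho ρ M)
include R

lemma ii (f : F) (a b : ℝ) : IntervalIntegrable (fun u => ρ u (val u f)) volume a b :=
  R.intervalIntegrable (measurable_val f) a b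

/-- the seminorm -/
def N : AddGroupSeminorm F where
  toFun := NN ρ
  map_zero' := by simp [NN, R.zero, ← Prod.zero_eq_mk]
  add_le' x y := by
    unfold NN
    rw [← intervalIntegral.integral_add (R.ii x 0 1) (R.ii y 0 1)]
    refine intervalIntegral.integral_mono_on (by norm_num) (R.ii _ 0 1)
      ((R.ii x 0 1).add (R.ii y 0 1)) ?_
    intro u _
    rw [map_add]
    exact R.add u _ _
  neg' x := by
    unfold NN
    congr 1
    ext u
    rw [map_neg, R.neg]

lemma N_apply (f : F) : R.N f = ∫ u in (0 : ℝ)..1, ρ u (val u f) := rfl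

lemma N_le (f : F) (φ : ℝ → ℝ) (hφ : IntervalIntegrable φ volume 0 1)
    (h : ∀ u, 0 < u → u < 1 → ρ u (val u f) ≤ φ u) : R.N f ≤ ∫ u in (0 : ℝ)..1, φ u := by
  rw [N_apply]
  exact intervalIntegral.integral_mono_on_of_le_Ioo (by norm_num) (R.ii _ 0 1) hφ
    fun u hu => h u hu.1 hu.2

lemma N_congr (f : F) (φ : ℝ → ℝ)
    (h : ∀ u, 0 < u → u < 1 → ρ u (val u f) = φ u) : R.N f = ∫ u in (0 : ℝ)..1, φ u := by
  rw [N_apply]
  rw [intervalIntegral.integral_of_le zero_le_one, intervalIntegral.integral_of_le zero_le_one,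
    integral_Ioc_eq_integral_Ioo, integral_Ioc_eq_integral_Ioo]
  exact setIntegral_congr_fun measurableSet_Ioo fun u hu => h u hu.1 hu.2

/-- norm of something that is `f` on `[0,s)` and `0` on `[s,1)`. -/
lemma N_lt_eq (f : F) (s : ℝ) (hs0 : 0 ≤ s) (hs1 : s ≤ 1) (φ : ℝ → ℝ)
    (h : ∀ u, 0 < u → u < s → ρ u (val u f) = φ u)
    (h' : ∀ u, s ≤ u → u < 1 → ρ u (val u f) = 0) : R.N f = ∫ u in (0 : ℝ)..s, φ u := by
  rw [N_apply, ← intervalIntegral.integral_add_adjacent_intervals (R.ii f 0 s) (R.ii f s 1)]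
  have h2 : (∫ u in s..1, ρ u (val u f)) = 0 := by
    rw [intervalIntegral.integral_of_le hs1, integral_Ioc_eq_integral_Ioo]
    rw [setIntegral_congr_fun (g := fun _ => 0) measurableSet_Ioo
      fun u hu => h' u hu.1.le hu.2]
    simp
  rw [h2, add_zero]
  rw [intervalIntegral.integral_of_le hs0, intervalIntegral.integral_of_le hs0,
    integral_Ioc_eq_integral_Ioo, integral_Ioc_eq_integral_Ioo]
  exact setIntegral_congr_fun measurableSet_Ioo fun u hu => h u hu.1 hu.2

lemma N_ge_eq (f : F) (s : ℝ) (hs0 : 0 ≤ s) (hs1 : s ≤ 1) (φ : ℝ → ℝ)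
    (h : ∀ u, s ≤ u → u < 1 → ρ u (val u f) = φ u)
    (h' : ∀ u, 0 < u → u < s → ρ u (val u f) = 0) : R.N f = ∫ u in s..1, φ u := by
  rw [N_apply, ← intervalIntegral.integral_add_adjacent_intervals (R.ii f 0 s) (R.ii f s 1)]
  have h2 : (∫ u in (0 : ℝ)..s, ρ u (val u f)) = 0 := by
    rw [intervalIntegral.integral_of_le hs0, integral_Ioc_eq_integral_Ioo]
    rw [setIntegral_congr_fun (g := fun _ => 0) measurableSet_Ioo
      fun u hu => h' u hu.1 hu.2]
    simp
  rw [h2, zero_add]
  rw [intervalIntegral.integral_of_le hs1, intervalIntegral.integral_of_le hs1,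
    integral_Ioc_eq_integral_Ioo, integral_Ioc_eq_integral_Ioo]
  exact setIntegral_congr_fun measurableSet_Ioo fun u hu => h u hu.1.le hu.2

/-- Lipschitz estimate for truncation. -/
lemma N_trunc_sub (h h' : I →₀ ℤ) (s s' : ℝ) :
    R.N (0, τ s h - τ s' h') ≤ R.N (0, h - h') + M * |s - s'| := by
  have hM := R.Mnn
  have hind : IntervalIntegrable (Set.indicator (Ico (min s s') (max s s')) (fun _ => M))
      volume 0 1 := by
    rw [intervalIntegrable_iff]
    exact (integrableOn_const (by simp [Set.uIoc])).indicator measurableSet_Ico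
  have h1 := R.N_le (0, τ s h - τ s' h')
    (fun u => ρ u (val u (0, h - h')) + Set.indicator (Ico (min s s') (max s s')) (fun _ => M) u)
    ((R.ii _ 0 1).add hind) ?_
  · refine h1.trans ?_
    rw [intervalIntegral.integral_add (R.ii _ 0 1) hind, ← R.N_apply]
    have h2 : (∫ u in (0 : ℝ)..1, Set.indicator (Ico (min s s') (max s s')) (fun _ => M) u)
        ≤ M * |s - s'| := by
      rw [intervalIntegral.integral_of_le zero_le_one, setIntegral_indicator measurableSet_Ico,
        setIntegral_const, smul_eq_mul, mul_comm]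
      refine mul_le_mul_of_nonneg_left ?_ hM
      calc volume.real (Ioc 0 1 ∩ Ico (min s s') (max s s'))
          ≤ volume.real (Ico (min s s') (max s s')) :=
            measureReal_mono Set.inter_subset_right (by simp)
        _ = |s - s'| := by
            rw [Real.volume_real_Ico_of_le min_le_max]
            exact max_sub_min_eq_abs' s s'
    linarith
  · intro u hu hu1
    simp only [val_apply, map_sub, V_trunc u _ hu.le hu1]
    by_cases h3 : u < s <;> by_cases h4 : u < s' <;> simp only [h3, h4, if_true, if_false]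
    · refine le_add_of_nonneg_right ?_
      exact Set.indicator_nonneg (fun _ _ => hM) _
    · rw [Set.indicator_of_mem]
      · linarith [R.bdd u (0, V u h - 0), R.nonneg u (0, V u h - V u h')]
      · exact ⟨le_trans (min_le_right _ _) (not_lt.mp h4), lt_of_lt_of_le h3 (le_max_left _ _)⟩
    · rw [Set.indicator_of_mem]
      · linarith [R.bdd u (0, 0 - V u h'), R.nonneg u (0, V u h - V u h')]
      · exact ⟨le_trans (min_le_left _ _) (not_lt.mp h3), lt_of_lt_of_le h4 (le_max_right _ _)⟩
    · have : ((0 : ℤ), (0 : E) - 0) = 0 := by simp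
      rw [this, R.zero]
      exact add_nonneg (R.nonneg _ _) (Set.indicator_nonneg (fun _ _ => hM) _)

end Rho

end

end Pool.Agent.H20R3.MG
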