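import Mathlib
import Pool.Agent.H20R3.MG.Norm

namespace Pool.Agent.H20R3.MG

open MeasureTheory Set

noncomputable section

/-- path condition for one element -/
def PathFor {F : Type*} [AddCommGroup F] (N : F → ℝ) (f : F) : Prop :=
  ∃ γ : ℝ → F, γ 0 = 0 ∧ γ 1 = f ∧
    (∀ s ∈ Set.Icc (0 : ℝ) 1, ∀ ε > 0, ∃ δ > 0, ∀ s' ∈ Set.Icc (0 : ℝ) 1,
      |s' - s| < δ → N (γ s' - γ s) < ε) ∧
    (∀ s ∈ Set.Icc (0 : ℝ) 1, N (γ s) < N f ∨ N (γ s - f) = 0)

namespace Rho

variable {ρ : ℝ → ℤ × E → ℝ} {M : ℝ} (R : Rho ρ M)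
include R

/-- the tail of the integral -/
def slack (_ : Rho ρ M) (f : F) (s : ℝ) : ℝ := ∫ u in s..1, ρ u (val u f)

lemma slack_nonneg (f : F) (s : ℝ) (hs1 : s ≤ 1) : 0 ≤ R.slack f s :=
  intervalIntegral.integral_nonneg hs1 fun _ _ => R.nonneg _ _

lemma N_eq_add (f : F) (s : ℝ) :
    R.N f = (∫ u in (0 : ℝ)..s, ρ u (val u f)) + R.slack f s := by
  rw [N_apply, slack, intervalIntegral.integral_add_adjacent_intervals (R.ii f 0 s) (R.ii f s 1)]

lemma slack_sub_le (f : F) (s s' : ℝ) : |R.slack f s' - R.slack f s| ≤ M * |s' - s| := by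
  have h : R.slack f s' - R.slack f s = ∫ u in s'..s, ρ u (val u f) := by
    unfold slack
    rw [sub_eq_iff_eq_add]
    rw [intervalIntegral.integral_add_adjacent_intervals (R.ii f s' s) (R.ii f s 1)]
  rw [h, ← Real.norm_eq_abs]
  have := intervalIntegral.norm_integral_le_of_norm_le_const (C := M) (a := s') (b := s)
    (f := fun u => ρ u (val u f)) ?_
  · rwa [abs_sub_comm] at this
  · intro u _
    rw [Real.norm_of_nonneg (R.nonneg _ _)]
    exact R.bdd _ _

lemma slack_one (f : F) : R.slack f 1 = 0 := by simp [slack]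

lemma slack_le (f : F) (s : ℝ) (hs1 : s ≤ 1) : R.slack f s ≤ M * (1 - s) := by
  have := R.slack_sub_le f 1 s
  rw [slack_one, sub_zero, abs_of_nonneg (R.slack_nonneg f s hs1), abs_sub_comm,
    abs_of_nonneg (by linarith)] at this
  exact this

lemma continuous_slack (f : F) : Continuous (R.slack f) := by
  have : LipschitzWith (Real.toNNReal M) (R.slack f) := by
    refine LipschitzWith.of_dist_le_mul fun x y => ?_
    rw [Real.dist_eq, Real.dist_eq, Real.coe_toNNReal _ R.Mnn]
    exact R.slack_sub_le f y x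
  exact this.continuous

lemma pathFor_trunc (f : F) (hz : ∀ u x, ρ u (f.1, x) = ρ u (0, x)) : PathFor R.N f := by
  have hz0 : ∀ u, ρ u (f.1, 0) = 0 := fun u => by
    rw [hz]; exact R.zero u
  have hz0' : ∀ u, ρ u (-f.1, 0) = 0 := fun u => by
    have := R.neg u (f.1, 0)
    rw [hz0 u] at this
    simpa using this
  have hg : ∀ s ∈ Set.Icc (0 : ℝ) 1,
      R.N ((if s < 1 then (0, τ s f.2) else f) - (0, τ s f.2)) = 0 := by
    intro s hs
    by_cases h1 : s < 1
    · rw [if_pos h1, sub_self, map_zero]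
    · have h2 : s = 1 := le_antisymm hs.2 (not_lt.mp h1)
      rw [if_neg h1, h2, τ_one, R.N_congr _ (fun _ => 0)]
      · simp
      · intro u _ _
        have : (f - (0, f.2) : F) = (f.1, 0) := by
          ext <;> simp
        rw [this]
        simp [hz0]
  refine ⟨fun s => if s < 1 then (0, τ s f.2) else f, ?_, ?_, ?_, ?_⟩
  · simp [τ_zero]
  · simp
  · intro s hs ε hε
    have hM := R.Mnn
    refine ⟨ε / (M + 1), by positivity, fun s' hs' hss => ?_⟩
    have e1 := hg s hs
    have e2 := hg s' hs'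
    set A : F := (if s < 1 then (0, τ s f.2) else f)
    set B : F := (if s' < 1 then (0, τ s' f.2) else f)
    have h3 : B - A = (B - (0, τ s' f.2)) + ((0, τ s' f.2 - τ s f.2) + ((0, τ s f.2) - A)) := by
      have : ((0, τ s' f.2 - τ s f.2) : F) = (0, τ s' f.2) - (0, τ s f.2) := by simp
      rw [this]; abel
    have e1' : R.N ((0, τ s f.2) - A) = 0 := by
      rw [← neg_sub, map_neg_eq_map]; exact e1
    have h4 := R.N_trunc_sub f.2 f.2 s' s
    rw [sub_self, show ((0 : ℤ), (0 : I →₀ ℤ)) = 0 from rfl, map_zero, zero_add] at h4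
    have h5 := map_add_le_add R.N (B - (0, τ s' f.2))
      ((0, τ s' f.2 - τ s f.2) + ((0, τ s f.2) - A))
    have h6 := map_add_le_add R.N ((0, τ s' f.2 - τ s f.2) : F) ((0, τ s f.2) - A)
    rw [← h3] at h5
    have h7 : M * |s' - s| < ε := by
      have : |s' - s| * (M + 1) < ε := by
        rwa [lt_div_iff₀ (by positivity)] at hss
      nlinarith [abs_nonneg (s' - s)]
    show R.N (B - A) < ε
    linarith
  · intro s hs
    by_cases h1 : s < 1
    · simp only [if_pos h1]
      have hN1 : R.N (0, τ s f.2) = ∫ u in (0 : ℝ)..s, ρ u (val u f) := by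
        refine R.N_lt_eq _ s hs.1 hs.2 _ ?_ ?_
        · intro u hu hu1
          simp only [val_apply]
          rw [V_trunc u s hu.le (by linarith), if_pos hu1, ← hz]
        · intro u hu hu1
          simp only [val_apply]
          rw [V_trunc u s (by linarith [hs.1]) hu1, if_neg (not_lt.mpr hu)]
          exact R.zero u
      have hN2 : R.N ((0, τ s f.2) - f) = R.slack f s := by
        refine R.N_ge_eq _ s hs.1 hs.2 _ ?_ ?_
        · intro u hu hu1
          simp only [val_apply, map_sub]
          rw [V_trunc u s (by linarith [hs.1]) hu1, if_neg (not_lt.mpr hu), Prod.mk_sub_mk,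
            zero_sub, zero_sub]
          have := R.neg u (f.1, V u f.2)
          simpa using this
        · intro u hu hu1
          simp only [val_apply, map_sub]
          rw [V_trunc u s hu.le (by linarith), if_pos hu1, Prod.mk_sub_mk, sub_self, zero_sub]
          exact hz0' u
      have h3 := R.N_eq_add f s
      rcases (R.slack_nonneg f s hs.2).eq_or_lt with h4 | h4
      · right; rw [hN2, ← h4]
      · left; rw [hN1]; linarith
    · right
      have h2 : s = 1 := le_antisymm hs.2 (not_lt.mp h1)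
      simp [h2]

end Rho

end

end Pool.Agent.H20R3.MG
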