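import Mathlib
import Pool.Agent.H20R3.MG.Path1

namespace Pool.Agent.H20R3.MG

open MeasureTheory Set

noncomputable section

lemma V_apply (u : ℝ) (h : I →₀ ℤ) (k : ℕ) :
    V u h k = ∑ i ∈ h.support, if i.1 = k ∧ u < (i.2 : ℝ) then h i else 0 := by
  unfold V
  rw [Finsupp.liftAddHom_apply, Finsupp.sum, Finsupp.finsetSum_apply]
  refine Finset.sum_congr rfl fun i _ => ?_
  by_cases h1 : u < (i.2 : ℝ)
  · simp only [h1, if_true, Finsupp.singleAddHom_apply, and_true]
    by_cases h2 : i.1 = k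
    · subst h2; simp
    · rw [if_neg h2, Finsupp.single_eq_of_ne (Ne.symm h2)]
  · simp [h1]

lemma dvd_V (n : ℤ) (u : ℝ) (h : I →₀ ℤ) (k : ℕ)
    (hd : ∀ i : I, i.1 = k → u < (i.2 : ℝ) → n ∣ h i) : n ∣ V u h k := by
  rw [V_apply]
  refine Finset.dvd_sum fun i _ => ?_
  split_ifs with h1
  · exact hd i h1.1 h1.2
  · exact dvd_zero _

lemma dvd_V_sub (n : ℤ) (u : ℝ) (h : I →₀ ℤ) (j : I) (hj : u < (j.2 : ℝ))
    (hd : ∀ i : I, i.1 = j.1 → u < (i.2 : ℝ) → i ≠ j → n ∣ h i) : n ∣ V u h j.1 - h j := by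
  have h1 : V u (h - Finsupp.single j (h j)) j.1 = V u h j.1 - h j := by
    rw [map_sub, V_single, if_pos hj]; simp
  rw [← h1]
  refine dvd_V n u _ _ fun i hi hu => ?_
  by_cases hij : i = j
  · subst hij; simp
  · rw [Finsupp.sub_apply, Finsupp.single_eq_of_ne hij, sub_zero]
    exact hd i hi hu hij

/-- If `V u h k` is divisible by `n` for a dense set of `u`, all coefficients are. -/
lemma dvd_coeff (n : ℤ) (h : I →₀ ℤ) (k : ℕ)
    (hA : ∀ a b : ℝ, 0 ≤ a → a < b → b ≤ 1 → ∃ u, a < u ∧ u < b ∧ n ∣ V u h k) (t : T) :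
    n ∣ h (k, t) := by
  classical
  by_contra hbad
  -- the finite set of bad positions
  let B : Finset T := (h.support.image Prod.snd).filter fun t => ¬ n ∣ h (k, t)
  have hB : ∀ t, t ∈ B ↔ ¬ n ∣ h (k, t) := by
    intro t
    simp only [B, Finset.mem_filter, Finset.mem_image, and_iff_right_iff_imp]
    intro ht
    refine ⟨(k, t), ?_, rfl⟩
    rw [Finsupp.mem_support_iff]
    intro h0
    rw [h0] at ht
    exact ht (dvd_zero _)
  have hne : B.Nonempty := ⟨t, (hB t).2 hbad⟩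
  obtain ⟨t₀, ht₀, hmax⟩ := B.exists_max_image id hne
  simp only [id] at hmax
  -- support points below t₀
  let P : Finset ℝ := insert 0 (((h.support.image Prod.snd).filter fun t => t < t₀).image
    (fun t : T => (t : ℝ)))
  have hPne : P.Nonempty := ⟨0, by simp [P]⟩
  let a := P.max' hPne
  have ha0 : 0 ≤ a := P.le_max' 0 (by simp [P])
  have haP : a ∈ P := P.max'_mem hPne
  have hat : a < t₀ := by
    simp only [P, Finset.mem_insert, Finset.mem_image, Finset.mem_filter] at haP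
    rcases haP with h0 | ⟨x, ⟨_, hx⟩, hxa⟩
    · rw [h0]; exact t₀.2.1
    · rw [← hxa]; exact hx
  obtain ⟨u, hu1, hu2, hu3⟩ := hA a t₀ ha0 hat t₀.2.2
  have h4 := dvd_V_sub n u h (k, t₀) hu2 (by
    intro i hi hui hne
    by_cases hi0 : h i = 0
    · rw [hi0]; exact dvd_zero _
    have hi1 : i.2 ∈ h.support.image Prod.snd :=
      Finset.mem_image.2 ⟨i, Finsupp.mem_support_iff.2 hi0, rfl⟩
    have hik : i = (k, i.2) := Prod.ext hi rfl
    rcases lt_trichotomy i.2 t₀ with h5 | h5 | h5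
    · exfalso
      have : (i.2 : ℝ) ≤ a := P.le_max' _ (by
        simp only [P, Finset.mem_insert, Finset.mem_image, Finset.mem_filter]
        right
        refine ⟨i.2, ⟨?_, h5⟩, rfl⟩
        exact Finset.mem_image.1 hi1)
      linarith
    · exfalso
      apply hne
      rw [hik, h5]
    · by_contra h6
      rw [hik] at h6
      have := hmax i.2 ((hB _).2 h6)
      exact absurd h5 (not_lt.mpr this))
  have h7 : n ∣ h (k, t₀) := by
    have := dvd_sub hu3 h4
    simpa using this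
  exact (hB _).1 ht₀ h7

namespace Rho

variable {ρ : ℝ → ℤ × E → ℝ} {M : ℝ} (R : Rho ρ M)
include R

/-- if `N f = 0` then `ρ u (val u f) = 0` for a.e. `u`. -/
lemma ae_zero (f : F) (h : R.N f = 0) :
    ∀ᵐ u ∂(volume.restrict (Ioc (0 : ℝ) 1)), ρ u (val u f) = 0 := by
  rw [N_apply, intervalIntegral.integral_of_le zero_le_one] at h
  have h1 := (integral_eq_zero_iff_of_nonneg (μ := volume.restrict (Ioc (0 : ℝ) 1))
    (f := fun u => ρ u (val u f)) (fun u => R.nonneg _ _) ?_).1 h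
  · filter_upwards [h1] with u hu
    exact hu
  · have := R.ii f 0 1
    rw [intervalIntegrable_iff, Set.uIoc_of_le zero_le_one] at this
    exact this

omit R in
lemma exists_of_ae {p : ℝ → Prop} (h : ∀ᵐ u ∂(volume.restrict (Ioc (0 : ℝ) 1)), p u)
    (a b : ℝ) (ha : 0 ≤ a) (hab : a < b) (hb : b ≤ 1) : ∃ u, a < u ∧ u < b ∧ p u := by
  rw [ae_restrict_iff' measurableSet_Ioc] at h
  by_contra hcon
  push Not at hcon
  have h2 : Ioo a b ⊆ {u | ¬ (u ∈ Ioc (0 : ℝ) 1 → p u)} := by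
    intro u hu h3
    exact hcon u hu.1 hu.2 (h3 ⟨by linarith [hu.1], by linarith [hu.2]⟩)
  have h3 : volume (Ioo a b) = 0 := measure_mono_null h2 (ae_iff.1 h)
  rw [Real.volume_Ioo, ENNReal.ofReal_eq_zero] at h3
  linarith

end Rho

end

end Pool.Agent.H20R3.MG
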