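import Mathlib
import Pool.Agent.H20R3.MG.Val

namespace Pool.Agent.H20R3.MG

open MeasureTheory Set

noncomputable section

/-- the point `1` of `T` -/
def one : T := ⟨1, one_pos, le_refl 1⟩

/-- indicator of non-divisibility -/
def nd (d : ℕ) (x : ℤ) : ℝ := if (d : ℤ) ∣ x then 0 else 1

lemma nd_nonneg (d : ℕ) (x : ℤ) : 0 ≤ nd d x := by unfold nd; split_ifs <;> norm_num
lemma nd_le (d : ℕ) (x : ℤ) : nd d x ≤ 1 := by unfold nd; split_ifs <;> norm_num
lemma nd_neg (d : ℕ) (x : ℤ) : nd d (-x) = nd d x := by simp [nd, dvd_neg]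
lemma nd_zero (d : ℕ) : nd d 0 = 0 := by simp [nd]
lemma nd_add (d : ℕ) (x y : ℤ) : nd d (x + y) ≤ nd d x + nd d y := by
  unfold nd
  by_cases hx : (d : ℤ) ∣ x <;> by_cases hy : (d : ℤ) ∣ y
  · simp [hx, hy, dvd_add hx hy]
  · simp only [hx, hy, if_true, if_false]; split_ifs <;> norm_num
  · simp only [hx, hy, if_true, if_false]; split_ifs <;> norm_num
  · simp only [hx, hy, if_false]; split_ifs <;> norm_num
lemma nd_eq_zero {d : ℕ} {x : ℤ} : nd d x = 0 ↔ (d : ℤ) ∣ x := by
  unfold nd; split_ifs with h <;> simp [h]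

/-- the family for type `d ≥ 1` -/
def ρd (d : ℕ) (_ : ℝ) (x : ℤ × E) : ℝ := nd d (x.2 0) + nd d (x.2 1)

lemma Rd (d : ℕ) : Rho (ρd d) 2 where
  zero u := by simp [ρd, nd_zero]
  neg u x := by simp [ρd, nd_neg]
  add u x y := by
    simp only [ρd, Prod.snd_add, Finsupp.add_apply]
    linarith [nd_add d (x.2 0) (y.2 0), nd_add d (x.2 1) (y.2 1)]
  bdd u x := by
    simp only [ρd]
    linarith [nd_le d (x.2 0), nd_le d (x.2 1)]
  meas x := measurable_const

/-- `Z` for type `d` -/
def Zd : F →+ ℤ := (Finsupp.applyAddHom (0, one)).comp (AddMonoidHom.snd ℤ (I →₀ ℤ))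

lemma Zd_apply (f : F) : Zd f = f.2 (0, one) := rfl

/-- `C` for type `d` -/
def Cd : F →+ (I →₀ ℤ) :=
  AddMonoidHom.comp
    ((Finsupp.filterAddHom (fun i : I => (i.1 = 0 ∧ i.2 ≠ one) ∨ i.1 = 1) :
        (I →₀ ℤ) →+ (I →₀ ℤ)) -
      ((Finsupp.singleAddHom (1, one)).comp (Finsupp.applyAddHom (0, one)) :
        (I →₀ ℤ) →+ (I →₀ ℤ)))
    (AddMonoidHom.snd ℤ (I →₀ ℤ))

lemma Cd_apply (f : F) (i : I) : Cd f i =
    (if (i.1 = 0 ∧ i.2 ≠ one) ∨ i.1 = 1 then f.2 i else 0) -
      (if i = (1, one) then f.2 (0, one) else 0) := by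
  unfold Cd
  simp only [AddMonoidHom.coe_comp, AddMonoidHom.coe_snd, Function.comp_apply,
    AddMonoidHom.sub_apply, Finsupp.filterAddHom, AddMonoidHom.coe_mk, ZeroHom.coe_mk,
    Finsupp.applyAddHom_apply,
    Finsupp.singleAddHom_apply, Finsupp.sub_apply, Finsupp.filter_apply]
  congr 1
  by_cases h : i = (1, one)
  · subst h; simp
  · rw [if_neg h, Finsupp.single_eq_of_ne h]

theorem gadget_d (d : ℕ) (n : ℕ → ℕ) (hn : ∀ k, n k = d) :
    ∃ N Z C, IsGadget d n N Z C := by
  refine ⟨(Rd d).N, Zd, Cd, ?_, ?_, ?_, ?_⟩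
  · exact fun f => (Rd d).pathFor_trunc f fun u x => rfl
  · intro f hf
    have hae := (Rd d).ae_zero f hf
    have h0 : ∀ k, k = 0 ∨ k = 1 → ∀ t, (d : ℤ) ∣ f.2 (k, t) := by
      intro k hk t
      refine dvd_coeff d f.2 k (fun a b ha hab hb => ?_) t
      obtain ⟨u, hu1, hu2, hu3⟩ := Rho.exists_of_ae hae a b ha hab hb
      refine ⟨u, hu1, hu2, ?_⟩
      simp only [ρd, val_apply] at hu3
      have e0 := nd_nonneg d (V u f.2 0)
      have e1 := nd_nonneg d (V u f.2 1)
      rcases hk with rfl | rfl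
      · exact nd_eq_zero.1 (by linarith)
      · exact nd_eq_zero.1 (by linarith)
    refine ⟨h0 0 (Or.inl rfl) one, fun i => ?_⟩
    rw [Cd_apply, hn]
    refine dvd_sub ?_ ?_
    · split_ifs with h
      · rcases i with ⟨k, t⟩
        refine h0 k ?_ t
        rcases h with h | h
        · exact Or.inl h.1
        · exact Or.inr h
      · exact dvd_zero _
    · split_ifs
      · exact h0 0 (Or.inl rfl) one
      · exact dvd_zero _
  · intro f hf
    have h1 : ∀ u, 0 < u → u < 1 → (d : ℤ) ∣ V u f.2 0 - f.2 (0, one) := by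
      intro u hu hu1
      refine dvd_V_sub d u f.2 (0, one) hu1 fun i hi hui hne => ?_
      have := hf i
      rw [Cd_apply, hn] at this
      have hi0 : i.1 = 0 := hi
      have hi2 : i.2 ≠ one := fun h => hne (Prod.ext hi h)
      rw [if_pos (Or.inl ⟨hi0, hi2⟩), if_neg, sub_zero] at this
      · exact this
      · rintro rfl; simp at hi0
    have h2 : ∀ u, 0 < u → u < 1 → (d : ℤ) ∣ V u f.2 1 - f.2 (1, one) := by
      intro u hu hu1
      refine dvd_V_sub d u f.2 (1, one) hu1 fun i hi hui hne => ?_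
      have := hf i
      rw [Cd_apply, hn] at this
      have hi0 : i.1 = 1 := hi
      rw [if_pos (Or.inr hi0), if_neg hne, sub_zero] at this
      exact this
    have h3 : (d : ℤ) ∣ f.2 (1, one) - f.2 (0, one) := by
      have := hf (1, one)
      rw [Cd_apply, hn] at this
      simpa using this
    by_cases h4 : (d : ℤ) ∣ f.2 (0, one)
    · left
      rw [(Rd d).N_congr f (fun _ => 0)]
      · simp
      · intro u hu hu1
        simp only [ρd, val_apply]
        rw [nd_eq_zero.2, nd_eq_zero.2, add_zero]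
        · have := dvd_add (h2 u hu hu1) (dvd_add h3 h4)
          simpa using this
        · have := dvd_add (h1 u hu hu1) h4
          simpa using this
    · right
      rw [(Rd d).N_congr f (fun _ => 2)]
      · simp; norm_num
      · intro u hu hu1
        simp only [ρd, val_apply]
        have e1 : ¬ (d : ℤ) ∣ V u f.2 0 := fun h => h4 (by
          have := dvd_sub h (h1 u hu hu1)
          simpa using this)
        have e2 : ¬ (d : ℤ) ∣ V u f.2 1 := fun h => h4 (by
          have := dvd_sub (dvd_sub h (h2 u hu hu1)) h3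
          simpa using this)
        simp only [nd, if_neg e1, if_neg e2]; norm_num
  · refine ⟨(0, Finsupp.single (0, one) 1 + Finsupp.single (1, one) 1), ?_, ?_⟩
    · rw [Zd_apply]
      simp
    · ext i
      rw [Cd_apply]
      simp only [Finsupp.add_apply, Finsupp.coe_zero, Pi.zero_apply]
      by_cases h1 : i = (1, one)
      · subst h1
        simp
      · rw [if_neg h1]
        by_cases h2 : i = (0, one)
        · subst h2; simp
        · rw [Finsupp.single_eq_of_ne h2, Finsupp.single_eq_of_ne h1]; simp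

end

end Pool.Agent.H20R3.MG
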