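import Mathlib
import Pool.Agent.H20R3.MG.GadD

namespace Pool.Agent.H20R3.MG

open MeasureTheory Set

noncomputable section

/-- the circle norm of a real number -/
def cn (x : ℝ) : ℝ := ‖(x : UnitAddCircle)‖

lemma cn_nonneg (x : ℝ) : 0 ≤ cn x := norm_nonneg _
lemma cn_zero : cn 0 = 0 := by simp [cn]
lemma cn_neg (x : ℝ) : cn (-x) = cn x := by simp [cn]
lemma cn_add (x y : ℝ) : cn (x + y) ≤ cn x + cn y := by
  unfold cn
  rw [AddCircle.coe_add]
  exact norm_add_le _ _
lemma cn_le_half (x : ℝ) : cn x ≤ 1 / 2 := by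
  unfold cn
  rw [UnitAddCircle.norm_eq]
  exact abs_sub_round x
lemma cn_add_int (x : ℝ) (m : ℤ) : cn (x + m) = cn x := by
  unfold cn
  congr 1
  rw [AddCircle.coe_add]
  have : ((m : ℝ) : UnitAddCircle) = 0 := by
    rw [AddCircle.coe_eq_zero_iff]
    exact ⟨m, by simp⟩
  rw [this, add_zero]
lemma cn_le_abs (x : ℝ) : cn x ≤ |x| := by
  unfold cn
  rw [UnitAddCircle.norm_eq]
  simpa using round_le x 0
lemma cn_eq_zero {x : ℝ} (h : cn x = 0) : ∃ m : ℤ, x = m := by
  unfold cn at h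
  rw [norm_eq_zero, AddCircle.coe_eq_zero_iff] at h
  obtain ⟨m, hm⟩ := h
  exact ⟨m, by rw [← hm]; simp⟩
lemma continuous_cn : Continuous cn := by
  unfold cn
  exact continuous_norm.comp (AddCircle.continuous_mk' 1)

lemma cn_add_half (x : ℝ) : cn x + cn (x + 1 / 2) = 1 / 2 := by
  unfold cn
  rw [UnitAddCircle.norm_eq, UnitAddCircle.norm_eq, abs_sub_round_eq_min, abs_sub_round_eq_min]
  have h0 := Int.fract_nonneg x
  have h1 := Int.fract_lt_one x
  rcases lt_or_ge (Int.fract x) (1 / 2) with h | h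
  · have e : Int.fract (x + 1 / 2) = Int.fract x + 1 / 2 := by
      rw [Int.fract_eq_iff]
      refine ⟨by linarith, by linarith, ⌊x⌋, ?_⟩
      have := Int.self_sub_floor x
      linarith
    rw [e, min_eq_left (by linarith), min_eq_right (by linarith)]
    ring
  · have e : Int.fract (x + 1 / 2) = Int.fract x - 1 / 2 := by
      rw [Int.fract_eq_iff]
      refine ⟨by linarith, by linarith, ⌊x⌋ + 1, ?_⟩
      have := Int.self_sub_floor x
      push_cast
      linarith
    rw [e, min_eq_right (by linarith), min_eq_left (by linarith)]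
    ring

lemma integral_cn (z : ℤ) (hz : z ≠ 0) : ∫ u in (0 : ℝ)..1, cn (z * u) = 1 / 4 := by
  have hz' : (z : ℝ) ≠ 0 := by exact_mod_cast hz
  have hc : Continuous fun u : ℝ => cn (z * u) := continuous_cn.comp (continuous_const.mul continuous_id)
  have hper : Function.Periodic (fun u : ℝ => cn (z * u)) 1 := by
    intro u
    show cn (z * (u + 1)) = cn (z * u)
    rw [mul_add, mul_one]
    exact cn_add_int _ _
  have h1 : ∫ u in (0 : ℝ)..1, cn (z * (u + 1 / (2 * z))) = ∫ u in (0 : ℝ)..1, cn (z * u) := by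
    rw [intervalIntegral.integral_comp_add_right (fun u => cn (z * u)) (1 / (2 * (z : ℝ)))]
    have := hper.intervalIntegral_add_eq (1 / (2 * (z : ℝ))) 0
    rw [zero_add] at this ⊢
    rw [← this, add_comm]
  have h2 : ∀ u : ℝ, cn (z * (u + 1 / (2 * z))) = 1 / 2 - cn (z * u) := by
    intro u
    have : (z : ℝ) * (u + 1 / (2 * z)) = z * u + 1 / 2 := by field_simp
    rw [this]
    linarith [cn_add_half (z * u)]
  simp only [h2] at h1
  rw [intervalIntegral.integral_sub (by simp) (hc.intervalIntegrable _ _)] at h1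
  simp at h1
  linarith

/-- the denominators -/
def qq (n : ℕ → ℕ) (k : ℕ) : ℕ := if n k = 0 then k + 1 else n k

lemma qq_dvd (n : ℕ → ℕ) (k : ℕ) : (qq n k : ℤ) ∣ (n k : ℤ) := by
  unfold qq; split_ifs with h
  · rw [h]; simp
  · exact dvd_rfl

lemma lt_qq (n : ℕ → ℕ) (hn : ∀ k, n k = 0 ∨ k < n k) (k : ℕ) : k < qq n k := by
  unfold qq; split_ifs with h
  · omega
  · exact (hn k).resolve_left h

/-- the angle -/
def ang (n : ℕ → ℕ) : E →+ ℝ :=
  Finsupp.liftAddHom (fun k => (AddMonoidHom.mulRight ((qq n k : ℝ)⁻¹)).comp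
    (Int.castAddHom ℝ))

lemma ang_single (n : ℕ → ℕ) (k : ℕ) (c : ℤ) : ang n (Finsupp.single k c) = c / qq n k := by
  unfold ang
  rw [Finsupp.liftAddHom_apply_single]
  simp [div_eq_mul_inv]

lemma ang_rat (n : ℕ → ℕ) (v : E) : ∃ q : ℚ, ang n v = q := by
  induction v using Finsupp.induction_linear with
  | zero => exact ⟨0, by simp⟩
  | add f g hf hg =>
    obtain ⟨a, ha⟩ := hf
    obtain ⟨b, hb⟩ := hg
    exact ⟨a + b, by rw [map_add, ha, hb]; push_cast; ring⟩
  | single k c => exact ⟨c / qq n k, by rw [ang_single]; push_cast; ring⟩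

lemma ang_int (n : ℕ → ℕ) (hn : ∀ k, n k = 0 ∨ k < n k) (v : E) (hv : ∀ k, (n k : ℤ) ∣ v k) :
    ∃ m : ℤ, ang n v = m := by
  have h1 : v = ∑ k ∈ v.support, Finsupp.single k (v k) := by
    conv_lhs => rw [← Finsupp.sum_single v]
    rfl
  rw [h1, map_sum]
  choose c hc using fun k => (qq_dvd n k).trans (hv k)
  refine ⟨∑ k ∈ v.support, c k, ?_⟩
  push_cast
  refine Finset.sum_congr rfl fun k _ => ?_
  rw [ang_single, hc k]
  have : (qq n k : ℝ) ≠ 0 := by
    have := lt_qq n hn k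
    have : 0 < qq n k := by omega
    positivity
  push_cast
  field_simp

/-- weights -/
def ww (n : ℕ → ℕ) (v : E) : ℝ := ∑' k, (1 / 2 : ℝ) ^ k * nd (n k) (v k)

lemma ww_summable (n : ℕ → ℕ) (v : E) : Summable fun k => (1 / 2 : ℝ) ^ k * nd (n k) (v k) := by
  refine Summable.of_nonneg_of_le (fun k => mul_nonneg (by positivity) (nd_nonneg _ _))
    (fun k => ?_) summable_geometric_two
  exact mul_le_of_le_one_right (by positivity) (nd_le _ _)

lemma ww_nonneg (n : ℕ → ℕ) (v : E) : 0 ≤ ww n v :=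
  tsum_nonneg fun k => mul_nonneg (by positivity) (nd_nonneg _ _)

lemma ww_le (n : ℕ → ℕ) (v : E) : ww n v ≤ 2 := by
  rw [← tsum_geometric_two]
  refine (ww_summable n v).tsum_le_tsum (fun k => ?_) summable_geometric_two
  exact mul_le_of_le_one_right (by positivity) (nd_le _ _)

lemma ww_zero (n : ℕ → ℕ) : ww n 0 = 0 := by simp [ww, nd_zero]

lemma ww_neg (n : ℕ → ℕ) (v : E) : ww n (-v) = ww n v := by simp [ww, nd_neg]

lemma ww_add (n : ℕ → ℕ) (v w : E) : ww n (v + w) ≤ ww n v + ww n w := by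
  unfold ww
  rw [← (ww_summable n v).tsum_add (ww_summable n w)]
  refine (ww_summable n _).tsum_le_tsum (fun k => ?_) ((ww_summable n v).add (ww_summable n w))
  rw [← mul_add, Finsupp.add_apply]
  exact mul_le_mul_of_nonneg_left (nd_add _ _ _) (by positivity)

lemma ww_eq_zero {n : ℕ → ℕ} {v : E} (h : ww n v = 0) (k : ℕ) : (n k : ℤ) ∣ v k := by
  have h1 := (ww_summable n v).le_tsum k
    (fun j _ => mul_nonneg (by positivity) (nd_nonneg _ _))
  have h2 : (1 / 2 : ℝ) ^ k * nd (n k) (v k) ≤ 0 := by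
    refine h1.trans ?_
    exact h.le
  have h3 := nd_nonneg (n k) (v k)
  refine nd_eq_zero.1 (le_antisymm ?_ h3)
  by_contra h4
  push Not at h4
  have : 0 < (1 / 2 : ℝ) ^ k * nd (n k) (v k) := by positivity
  linarith

lemma ww_of_dvd {n : ℕ → ℕ} {v : E} (h : ∀ k, (n k : ℤ) ∣ v k) : ww n v = 0 := by
  unfold ww
  have : ∀ k, (1 / 2 : ℝ) ^ k * nd (n k) (v k) = 0 := fun k => by
    rw [nd_eq_zero.2 (h k), mul_zero]
  simp only [this, tsum_zero]

lemma ww_single (n : ℕ → ℕ) (k : ℕ) (c : ℤ) : ww n (Finsupp.single k c) ≤ 1 / (k + 1) := by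
  have h1 : ww n (Finsupp.single k c) = (1 / 2 : ℝ) ^ k * nd (n k) c := by
    unfold ww
    rw [tsum_eq_single k]
    · simp
    · intro j hj
      rw [Finsupp.single_eq_of_ne hj, nd_zero, mul_zero]
  rw [h1]
  refine (mul_le_of_le_one_right (by positivity) (nd_le _ _)).trans ?_
  rw [one_div_pow, one_div_le_one_div (by positivity) (by positivity)]
  have : k + 1 ≤ 2 ^ k := Nat.lt_two_pow_self
  exact_mod_cast this

/-- the family for type `0` -/
def ρ0 (n : ℕ → ℕ) (u : ℝ) (x : ℤ × E) : ℝ := cn (x.1 * u + ang n x.2) + ww n x.2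

lemma R0 (n : ℕ → ℕ) : Rho (ρ0 n) 3 where
  zero u := by simp [ρ0, cn_zero, ww_zero]
  neg u x := by
    simp only [ρ0, Prod.fst_neg, Prod.snd_neg, map_neg, ww_neg]
    congr 1
    rw [← cn_neg]
    congr 1
    push_cast; ring
  add u x y := by
    simp only [ρ0, Prod.fst_add, Prod.snd_add, map_add]
    have h1 := cn_add (x.1 * u + ang n x.2) (y.1 * u + ang n y.2)
    have h2 : (((x.1 + y.1 : ℤ) : ℝ) * u + (ang n x.2 + ang n y.2)) =
      (x.1 * u + ang n x.2) + (y.1 * u + ang n y.2) := by push_cast; ring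
    rw [h2]
    linarith [ww_add n x.2 y.2]
  bdd u x := by
    simp only [ρ0]
    linarith [cn_le_half (x.1 * u + ang n x.2), ww_le n x.2]
  meas x := by
    have h1 : Continuous fun u : ℝ => cn (x.1 * u + ang n x.2) :=
      continuous_cn.comp ((continuous_const.mul continuous_id).add continuous_const)
    exact h1.measurable.add measurable_const

end

end Pool.Agent.H20R3.MG
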