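import Mathlib
import Pool.Agent.H20R3.MG.Gad0a

namespace Pool.Agent.H20R3.MG

open MeasureTheory Set

noncomputable section

/-- the approximant `⌊q_k u⌋` of the identity function -/
def TT (n : ℕ → ℕ) (k : ℕ) : I →₀ ℤ :=
  ∑ j ∈ Finset.range (qq n k - 1), (gen k 1 1 - gen k (((j : ℝ) + 1) / qq n k) 1)

lemma V_TT (n : ℕ → ℕ) (hn : ∀ k, n k = 0 ∨ k < n k) (k : ℕ) (u : ℝ) (hu : 0 ≤ u) (hu1 : u < 1) :
    V u (TT n k) = Finsupp.single k (⌊(qq n k : ℝ) * u⌋₊ : ℤ) := by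
  have hq : 0 < qq n k := by have := lt_qq n hn k; omega
  have hq' : (0 : ℝ) < qq n k := by exact_mod_cast hq
  unfold TT
  rw [map_sum]
  have h1 : ∀ j ∈ Finset.range (qq n k - 1),
      V u (gen k 1 1 - gen k (((j : ℝ) + 1) / qq n k) 1) =
        if j < ⌊(qq n k : ℝ) * u⌋₊ then Finsupp.single k 1 else 0 := by
    intro j _
    rw [map_sub, V_gen u hu hu1, V_gen u hu hu1, if_pos hu1]
    have h2 : (u < ((j : ℝ) + 1) / qq n k) ↔ ¬ (j < ⌊(qq n k : ℝ) * u⌋₊) := by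
      rw [lt_div_iff₀ hq', ← Nat.add_one_le_iff, Nat.le_floor_iff (by positivity)]
      push_cast
      rw [not_le, mul_comm]
    by_cases h3 : j < ⌊(qq n k : ℝ) * u⌋₊
    · rw [if_neg (fun h => h2.1 h h3), if_pos h3, sub_zero]
    · rw [if_pos (h2.2 h3), if_neg h3, sub_self]
  rw [Finset.sum_congr rfl h1, ← Finset.sum_filter]
  have h4 : (Finset.range (qq n k - 1)).filter (fun j => j < ⌊(qq n k : ℝ) * u⌋₊) =
      Finset.range ⌊(qq n k : ℝ) * u⌋₊ := by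
    ext j
    simp only [Finset.mem_filter, Finset.mem_range, and_iff_right_iff_imp]
    intro hj
    have h5 : ⌊(qq n k : ℝ) * u⌋₊ < qq n k := by
      rw [Nat.floor_lt (by positivity)]
      nlinarith
    omega
  rw [h4, Finset.sum_const, Finset.card_range]
  ext i
  by_cases hi : i = k
  · subst hi; simp
  · rw [Finsupp.smul_apply, Finsupp.single_eq_of_ne hi, Finsupp.single_eq_of_ne hi]; simp

lemma ρ0_TT (n : ℕ → ℕ) (hn : ∀ k, n k = 0 ∨ k < n k) (k : ℕ) (u : ℝ) (hu : 0 ≤ u) (hu1 : u < 1) :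
    ρ0 n u ((1 : ℤ), -V u (TT n k)) ≤ 2 / (k + 1) := by
  have hk := lt_qq n hn k
  have hq : 0 < qq n k := by omega
  have hq' : (0 : ℝ) < qq n k := by exact_mod_cast hq
  rw [V_TT n hn k u hu hu1]
  simp only [ρ0, map_neg, ww_neg, ang_single]
  have h1 := ww_single n k (⌊(qq n k : ℝ) * u⌋₊ : ℤ)
  have h2 : cn (((1 : ℤ) : ℝ) * u + -(((⌊(qq n k : ℝ) * u⌋₊ : ℤ) : ℝ) / qq n k)) ≤ 1 / (k + 1) := by
    refine (cn_le_abs _).trans ?_
    have h3 : ((⌊(qq n k : ℝ) * u⌋₊ : ℤ) : ℝ) ≤ qq n k * u := by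
      have := Nat.floor_le (a := (qq n k : ℝ) * u) (by positivity)
      exact_mod_cast this
    have h4 : qq n k * u < ((⌊(qq n k : ℝ) * u⌋₊ : ℤ) : ℝ) + 1 := by
      have := Nat.lt_floor_add_one ((qq n k : ℝ) * u)
      exact_mod_cast this
    have h5 : ((⌊(qq n k : ℝ) * u⌋₊ : ℤ) : ℝ) / qq n k ≤ u := by
      rw [div_le_iff₀ hq']; linarith
    have h6 : u ≤ ((⌊(qq n k : ℝ) * u⌋₊ : ℤ) : ℝ) / qq n k + 1 / qq n k := by
      rw [← add_div, le_div_iff₀ hq']; linarith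
    have h7 : (1 : ℝ) / qq n k ≤ 1 / (k + 1) := by
      apply one_div_le_one_div_of_le (by positivity)
      exact_mod_cast hk
    rw [abs_of_nonneg (by push_cast at *; linarith)]
    push_cast at *
    linarith
  have h8 : (2 : ℝ) / (k + 1) = 1 / (k + 1) + 1 / (k + 1) := by ring
  rw [h8]
  exact add_le_add h2 h1

/-- segment from `TT k` to `TT (k+1)` -/
def seg (n : ℕ → ℕ) (k : ℕ) (θ : ℝ) : I →₀ ℤ := τ θ (TT n (k + 1) - TT n k) + TT n k

lemma seg_zero (n k) : seg n k 0 = TT n k := by simp [seg, τ_zero]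
lemma seg_one (n k) : seg n k 1 = TT n (k + 1) := by simp [seg, τ_one]

lemma seg_sub (n k) (θ θ' : ℝ) : (R0 n).N (0, seg n k θ - seg n k θ') ≤ 3 * |θ - θ'| := by
  have h := (R0 n).N_trunc_sub (TT n (k + 1) - TT n k) (TT n (k + 1) - TT n k) θ θ'
  rw [sub_self, show ((0 : ℤ), (0 : I →₀ ℤ)) = 0 from rfl, map_zero, zero_add] at h
  have : seg n k θ - seg n k θ' = τ θ (TT n (k + 1) - TT n k) - τ θ' (TT n (k + 1) - TT n k) := by
    unfold seg; abel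
  rw [this]; exact h

/-- the path of approximants -/
def tt (n : ℕ → ℕ) (r : ℝ) : I →₀ ℤ := seg n ⌊r⌋₊ (r - ⌊r⌋₊)

lemma ρ0_tt (n : ℕ → ℕ) (hn : ∀ k, n k = 0 ∨ k < n k) (r : ℝ) (hr : 0 < r) (u : ℝ) (hu : 0 ≤ u)
    (hu1 : u < 1) : ρ0 n u ((1 : ℤ), -V u (tt n r)) ≤ 2 / r := by
  have hV : V u (tt n r) = V u (TT n ⌊r⌋₊) ∨ V u (tt n r) = V u (TT n (⌊r⌋₊ + 1)) := by
    unfold tt seg
    rw [map_add, V_trunc u _ hu hu1, map_sub]
    split_ifs
    · right; abel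
    · left; simp
  have h1 : r < (⌊r⌋₊ : ℝ) + 1 := Nat.lt_floor_add_one r
  rcases hV with h | h
  · rw [h]
    refine (ρ0_TT n hn _ u hu hu1).trans ?_
    exact div_le_div_of_nonneg_left (by norm_num) hr h1.le
  · rw [h]
    refine (ρ0_TT n hn _ u hu hu1).trans ?_
    refine div_le_div_of_nonneg_left (by norm_num) hr ?_
    push_cast; linarith

lemma N0_sub_triangle (n : ℕ → ℕ) (a b c : I →₀ ℤ) :
    (R0 n).N (0, a - c) ≤ (R0 n).N (0, a - b) + (R0 n).N (0, b - c) := by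
  have h := map_add_le_add (R0 n).N ((0, a - b) : F) (0, b - c)
  have : ((0, a - b) : F) + (0, b - c) = (0, a - c) := by simp
  rwa [this] at h

lemma TT_sub (n : ℕ → ℕ) (k l : ℕ) : (R0 n).N (0, TT n (k + l) - TT n k) ≤ 3 * l := by
  induction l with
  | zero => simp [show ((0 : ℤ), (0 : I →₀ ℤ)) = 0 from rfl]
  | succ l ih =>
    have h := N0_sub_triangle n (TT n (k + (l + 1))) (TT n (k + l)) (TT n k)
    have h1 := seg_sub n (k + l) 1 0
    rw [seg_one, seg_zero] at h1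
    norm_num at h1
    rw [← add_assoc] at h
    push_cast
    rw [← add_assoc]
    linarith

lemma tt_sub_of_le (n : ℕ → ℕ) (r r' : ℝ) (hr : 0 ≤ r) (h : r ≤ r') :
    (R0 n).N (0, tt n r' - tt n r) ≤ 3 * (r' - r) := by
  have hfl : ⌊r⌋₊ ≤ ⌊r'⌋₊ := Nat.floor_le_floor h
  rcases hfl.eq_or_lt with h1 | h1
  · unfold tt
    rw [← h1]
    have := seg_sub n ⌊r⌋₊ (r' - ⌊r⌋₊) (r - ⌊r⌋₊)
    have e : (r' - (⌊r⌋₊ : ℝ)) - (r - ⌊r⌋₊) = r' - r := by ring
    rw [e, abs_of_nonneg (by linarith)] at this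
    exact this
  · obtain ⟨l, hl⟩ := Nat.exists_eq_add_of_le (Nat.succ_le_of_lt h1)
    have a1 := Nat.floor_le hr
    have a2 := Nat.floor_le (hr.trans h)
    have a3 := (Nat.lt_floor_add_one r).le
    have b1 := seg_sub n ⌊r'⌋₊ (r' - ⌊r'⌋₊) 0
    rw [seg_zero, sub_zero, abs_of_nonneg (by linarith)] at b1
    have b2 := seg_sub n ⌊r⌋₊ 1 (r - ⌊r⌋₊)
    rw [seg_one, abs_of_nonneg (by linarith)] at b2
    have b3 := TT_sub n (⌊r⌋₊ + 1) l
    rw [Nat.succ_eq_add_one] at hl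
    rw [← hl] at b3
    have c1 := N0_sub_triangle n (tt n r') (TT n ⌊r'⌋₊) (tt n r)
    have c2 := N0_sub_triangle n (TT n ⌊r'⌋₊) (TT n (⌊r⌋₊ + 1)) (tt n r)
    have hl' : (⌊r'⌋₊ : ℝ) = ⌊r⌋₊ + 1 + l := by exact_mod_cast hl
    unfold tt at *
    linarith

lemma tt_sub (n : ℕ → ℕ) (r r' : ℝ) (hr : 0 ≤ r) (hr' : 0 ≤ r') :
    (R0 n).N (0, tt n r' - tt n r) ≤ 3 * |r' - r| := by
  rcases le_total r r' with h | h
  · rw [abs_of_nonneg (by linarith)]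
    exact tt_sub_of_le n r r' hr h
  · rw [abs_of_nonpos (by linarith), neg_sub]
    have := tt_sub_of_le n r' r hr' h
    have e : (R0 n).N (0, tt n r' - tt n r) = (R0 n).N (0, tt n r - tt n r') := by
      rw [← map_neg_eq_map]; congr 1; simp
    rw [e]; exact this

end

end Pool.Agent.H20R3.MG
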