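import Mathlib
import Pool.Agent.H20R3.MG.Gad0b

namespace Pool.Agent.H20R3.MG

open MeasureTheory Set

noncomputable section

namespace Rho

variable {ρ : ℝ → ℤ × E → ℝ} {M : ℝ} (R : Rho ρ M)
include R

lemma N_le_S1 (f' f : F) (s a : ℝ) (hs0 : 0 ≤ s) (hs1 : s ≤ 1)
    (h1 : ∀ u, 0 < u → u < s → ρ u (val u f') ≤ ρ u (val u f) + a)
    (h2 : ∀ u, s ≤ u → u < 1 → ρ u (val u f') = 0) :
    R.N f' ≤ R.N f - R.slack f s + s * a := by
  have e1 := R.N_lt_eq f' s hs0 hs1 (fun u => ρ u (val u f')) (fun _ _ _ => rfl) h2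
  have e2 : (∫ u in (0 : ℝ)..s, ρ u (val u f')) ≤ ∫ u in (0 : ℝ)..s, (ρ u (val u f) + a) :=
    intervalIntegral.integral_mono_on_of_le_Ioo hs0 (R.ii _ 0 s)
      ((R.ii f 0 s).add (by simp)) fun u hu => h1 u hu.1 hu.2
  rw [intervalIntegral.integral_add (R.ii f 0 s) (by simp)] at e2
  have e3 := R.N_eq_add f s
  simp only [intervalIntegral.integral_const, smul_eq_mul, sub_zero] at e2
  linarith

lemma N_le_S2 (f' f : F) (s a : ℝ) (hs0 : 0 ≤ s) (hs1 : s ≤ 1)
    (h1 : ∀ u, 0 < u → u < s → ρ u (val u f') ≤ a)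
    (h2 : ∀ u, s ≤ u → u < 1 → ρ u (val u f') ≤ ρ u (val u f)) :
    R.N f' ≤ s * a + R.slack f s := by
  have e3 := R.N_eq_add f' s
  have e1 : (∫ u in (0 : ℝ)..s, ρ u (val u f')) ≤ ∫ _u in (0 : ℝ)..s, a :=
    intervalIntegral.integral_mono_on_of_le_Ioo hs0 (R.ii _ 0 s)
      (by simp) fun u hu => h1 u hu.1 hu.2
  have e2 : R.slack f' s ≤ R.slack f s :=
    intervalIntegral.integral_mono_on_of_le_Ioo hs1 (R.ii _ s 1)
      (R.ii _ s 1) fun u hu => h2 u hu.1.le hu.2
  simp only [intervalIntegral.integral_const, smul_eq_mul, sub_zero] at e1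
  linarith

end Rho

variable (n : ℕ → ℕ)

/-- if `ρ0 = 0` and `z ≠ 0` then `u` is rational. -/
lemma rat_of_zero (z : ℤ) (v : E) (u : ℝ) (hz : z ≠ 0) (h : ρ0 n u (z, v) = 0) :
    u ∈ Set.range ((↑) : ℚ → ℝ) := by
  simp only [ρ0] at h
  have h1 : cn (z * u + ang n v) = 0 := by
    linarith [cn_nonneg (z * u + ang n v), ww_nonneg n v]
  obtain ⟨m, hm⟩ := cn_eq_zero h1
  obtain ⟨q, hq⟩ := ang_rat n v
  refine ⟨(m - q) / z, ?_⟩
  have hz' : (z : ℝ) ≠ 0 := by exact_mod_cast hz
  push_cast
  rw [div_eq_iff hz']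
  rw [hq] at hm
  linarith

lemma ae_irr : ∀ᵐ u ∂(volume.restrict (Ioc (0 : ℝ) 1)), u ∉ Set.range ((↑) : ℚ → ℝ) := by
  apply ae_restrict_of_ae
  rw [ae_iff]
  simp only [not_not]
  exact (Set.countable_range _).measure_zero volume

lemma slack_pos (f : F) (hz : f.1 ≠ 0) (s : ℝ) (hs0 : 0 ≤ s) (hs : s < 1) :
    0 < (R0 n).slack f s := by
  rcases ((R0 n).slack_nonneg f s hs.le).eq_or_lt with h | h
  · exfalso
    unfold Rho.slack at h
    rw [intervalIntegral.integral_of_le hs.le] at h
    have h1 := (integral_eq_zero_iff_of_nonneg (μ := volume.restrict (Ioc s 1))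
      (f := fun u => ρ0 n u (val u f)) (fun u => (R0 n).nonneg _ _) (by
        have := (R0 n).ii f s 1
        rwa [intervalIntegrable_iff, Set.uIoc_of_le hs.le] at this)).1 h.symm
    have h2 : ∀ᵐ u ∂(volume.restrict (Ioc s 1)), u ∉ Set.range ((↑) : ℚ → ℝ) := by
      apply ae_restrict_of_ae
      rw [ae_iff]
      simp only [not_not]
      exact (Set.countable_range _).measure_zero volume
    have h3 : ∀ᵐ u ∂(volume.restrict (Ioc s 1)), False := by
      filter_upwards [h1, h2] with u hu1 hu2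
      exact hu2 (rat_of_zero n f.1 _ u hz hu1)
    rw [ae_iff] at h3
    simp at h3
    linarith
  · exact h

lemma pathFor_zero (hn : ∀ k, n k = 0 ∨ k < n k) (f : F) (hz : f.1 ≠ 0) :
    PathFor (R0 n).N f := by
  set z := f.1 with hzdef
  set h := f.2 with hhdef
  set R := R0 n
  have hzpos : (0 : ℝ) < |(z : ℝ)| := abs_pos.2 (by exact_mod_cast hz)
  let r : ℝ → ℝ := fun s => 4 * |(z : ℝ)| / R.slack f s
  have hr : ∀ s, 0 ≤ s → s < 1 → 0 < r s := fun s h0 h1 =>
    div_pos (by positivity) (slack_pos n f hz s h0 h1)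
  let x : ℝ → (I →₀ ℤ) := fun s => h + z • tt n (r s)
  let g : ℝ → F := fun s => (0, τ s (x s))
  -- pointwise estimate
  have hpt : ∀ s, 0 ≤ s → s < 1 → ∀ u, 0 ≤ u → u < 1 →
      ρ0 n u (z • ((1 : ℤ), -V u (tt n (r s)))) ≤ R.slack f s / 2 := by
    intro s h0 h1 u hu hu1
    refine (R.zsmul u _ z).trans ?_
    have e1 := ρ0_tt n hn (r s) (hr s h0 h1) u hu hu1
    have e2 := slack_pos n f hz s h0 h1
    calc ((|z| : ℤ) : ℝ) * ρ0 n u ((1 : ℤ), -V u (tt n (r s)))
        ≤ ((|z| : ℤ) : ℝ) * (2 / r s) := mul_le_mul_of_nonneg_left e1 (by positivity)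
      _ = R.slack f s / 2 := by
        push_cast
        simp only [r]
        have : R.slack f s ≠ 0 := e2.ne'
        field_simp
        ring
  -- g s has small norm
  have hg1 : ∀ s, 0 ≤ s → s < 1 → R.N (g s) < R.N f := by
    intro s h0 h1
    have e := R.N_le_S1 (g s) f s (R.slack f s / 2) h0 h1.le ?_ ?_
    · have e2 := slack_pos n f hz s h0 h1
      have : s * (R.slack f s / 2) ≤ R.slack f s / 2 := by nlinarith
      linarith
    · intro u hu hu1
      have e1 := hpt s h0 h1 u hu.le (hu1.trans h1)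
      have e2 : val u (g s) = val u f - z • ((1 : ℤ), -V u (tt n (r s))) := by
        simp only [val_apply, g, x]
        rw [V_trunc u s hu.le (hu1.trans h1), if_pos hu1, map_add, map_zsmul]
        ext1
        · simp [← hzdef]
        · simp [← hhdef]
      rw [e2]
      refine (R.sub u _ _).trans ?_
      linarith
    · intro u hu hu1
      simp only [val_apply, g]
      rw [V_trunc u s (h0.trans hu) hu1, if_neg (not_lt.2 hu)]
      exact R.zero u
  -- g s is close to f
  have hg2 : ∀ s, 0 ≤ s → s < 1 → R.N (g s - f) ≤ 6 * (1 - s) := by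
    intro s h0 h1
    have e := R.N_le_S2 (g s - f) f s (R.slack f s / 2) h0 h1.le ?_ ?_
    · have e2 := slack_pos n f hz s h0 h1
      have e3 := R.slack_le f s h1.le
      have : s * (R.slack f s / 2) ≤ R.slack f s / 2 := by nlinarith
      linarith
    · intro u hu hu1
      have e1 := hpt s h0 h1 u hu.le (hu1.trans h1)
      have e2 : val u (g s - f) = -(z • ((1 : ℤ), -V u (tt n (r s)))) := by
        rw [map_sub]
        simp only [val_apply, g, x]
        rw [V_trunc u s hu.le (hu1.trans h1), if_pos hu1, map_add, map_zsmul]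
        ext1
        · simp [← hzdef]
        · simp [← hhdef]
      rw [e2, R.neg]
      exact e1
    · intro u hu hu1
      have e2 : val u (g s - f) = -(val u f) := by
        rw [map_sub]
        simp only [val_apply, g]
        rw [V_trunc u s (h0.trans hu) hu1, if_neg (not_lt.2 hu)]
        simp
      rw [e2, R.neg]
  -- continuity of r
  have hrc : ∀ s, 0 ≤ s → s < 1 → ContinuousAt r s := by
    intro s h0 h1
    exact continuousAt_const.div (R.continuous_slack f).continuousAt
      (slack_pos n f hz s h0 h1).ne'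
  -- continuity of g
  have hg3 : ∀ s, 0 ≤ s → s < 1 → ∀ s', 0 ≤ s' → s' < 1 →
      R.N (g s' - g s) ≤ 3 * |(z : ℝ)| * |r s' - r s| + 3 * |s' - s| := by
    intro s h0 h1 s' h0' h1'
    have e1 := R.N_trunc_sub (x s') (x s) s' s
    have e2 : g s' - g s = (0, τ s' (x s') - τ s (x s)) := by simp [g]
    have e3 : ((0 : ℤ), x s' - x s) = z • ((0 : ℤ), tt n (r s') - tt n (r s)) := by
      simp only [x]
      ext1
      · simp
      · simp [smul_sub]
    have e4 : R.N (z • ((0, tt n (r s') - tt n (r s)) : F)) ≤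
        |(z : ℝ)| * R.N (0, tt n (r s') - tt n (r s)) := by
      have : ∀ m : ℕ, ∀ y : F, R.N (m • y) ≤ m * R.N y := by
        intro m y
        induction m with
        | zero => simp
        | succ m ih =>
          rw [succ_nsmul]
          refine (map_add_le_add R.N _ _).trans ?_
          push_cast; linarith
      rcases Int.natAbs_eq z with hzz | hzz
      · have h1 : |(z : ℝ)| = (z.natAbs : ℝ) := by
          rw [← Int.cast_abs, Int.abs_eq_natAbs]; simp
        rw [h1]
        conv_lhs => rw [hzz]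
        rw [natCast_zsmul]
        exact this _ _
      · have h1 : |(z : ℝ)| = (z.natAbs : ℝ) := by
          rw [← Int.cast_abs, Int.abs_eq_natAbs]; simp
        rw [h1]
        conv_lhs => rw [hzz]
        rw [neg_smul, natCast_zsmul, map_neg_eq_map]
        exact this _ _
    have e5 := tt_sub n (r s) (r s') (hr s h0 h1).le (hr s' h0' h1').le
    rw [e2]
    refine e1.trans ?_
    rw [e3]
    have e6 : |(z : ℝ)| * R.N (0, tt n (r s') - tt n (r s)) ≤ |(z : ℝ)| * (3 * |r s' - r s|) :=
      mul_le_mul_of_nonneg_left e5 hzpos.le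
    linarith
  refine ⟨fun s => if s < 1 then g s else f, ?_, ?_, ?_, ?_⟩
  · simp [g, τ_zero]
  · simp
  · intro s hs ε hε
    rcases hs.2.lt_or_eq with h1 | h1
    · -- s < 1
      have hc := hrc s hs.1 h1
      rw [Metric.continuousAt_iff] at hc
      obtain ⟨δ, hδ, hδ'⟩ := hc (ε / (6 * |(z : ℝ)| + 1)) (by positivity)
      refine ⟨min (min δ (1 - s)) (ε / 6), ?_, ?_⟩
      · exact lt_min (lt_min hδ (by linarith)) (by positivity)
      · intro s' hs' hss
        have hs'1 : s' < 1 := by
          have : |s' - s| < 1 - s := hss.trans_le ((min_le_left _ _).trans (min_le_right _ _))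
          have := (abs_lt.1 this).2
          linarith
        simp only [if_pos h1, if_pos hs'1]
        have e1 := hg3 s hs.1 h1 s' hs'.1 hs'1
        have e2 : |r s' - r s| < ε / (6 * |(z : ℝ)| + 1) := by
          have := hδ' (x := s') (by
            rw [Real.dist_eq]
            exact hss.trans_le ((min_le_left _ _).trans (min_le_left _ _)))
          rwa [Real.dist_eq] at this
        have e3 : |s' - s| < ε / 6 := hss.trans_le (min_le_right _ _)
        have e4 : 3 * |(z : ℝ)| * |r s' - r s| ≤ ε / 2 := by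
          have : 3 * |(z : ℝ)| * |r s' - r s| ≤ 3 * |(z : ℝ)| * (ε / (6 * |(z : ℝ)| + 1)) :=
            mul_le_mul_of_nonneg_left e2.le (by positivity)
          refine this.trans ?_
          rw [mul_div_assoc', div_le_iff₀ (by positivity)]
          nlinarith
        linarith
    · -- s = 1
      subst h1
      refine ⟨ε / 6, by positivity, ?_⟩
      intro s' hs' hss
      simp only [lt_irrefl, if_false]
      by_cases hs'1 : s' < 1
      · rw [if_pos hs'1]
        have e1 := hg2 s' hs'.1 hs'1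
        have e2 := (abs_lt.1 hss).1
        linarith
      · rw [if_neg hs'1, sub_self, map_zero]; exact hε
  · intro s hs
    by_cases h1 : s < 1
    · left
      simp only [if_pos h1]
      exact hg1 s hs.1 h1
    · right
      simp only [if_neg h1, sub_self, map_zero]

theorem gadget_0 (hn : ∀ k, n k = 0 ∨ k < n k) : ∃ N Z C, IsGadget 0 n N Z C := by
  refine ⟨(R0 n).N, AddMonoidHom.fst ℤ (I →₀ ℤ), AddMonoidHom.snd ℤ (I →₀ ℤ), ?_, ?_, ?_, ?_⟩
  · intro f
    by_cases hz : f.1 = 0
    · exact (R0 n).pathFor_trunc f fun u x => by rw [hz]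
    · exact pathFor_zero n hn f hz
  · intro f hf
    have hae := (R0 n).ae_zero f hf
    have hz : f.1 = 0 := by
      by_contra hz
      obtain ⟨u, _, _, hu3⟩ := Rho.exists_of_ae (hae.and ae_irr) 0 1 le_rfl one_pos le_rfl
      exact hu3.2 (rat_of_zero n f.1 _ u hz hu3.1)
    refine ⟨by simp [hz], fun i => ?_⟩
    refine dvd_coeff (n i.1) f.2 i.1 (fun a b ha hab hb => ?_) i.2
    obtain ⟨u, hu1, hu2, hu3⟩ := Rho.exists_of_ae hae a b ha hab hb
    refine ⟨u, hu1, hu2, ?_⟩
    simp only [ρ0, val_apply] at hu3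
    have e0 := cn_nonneg (f.1 * u + ang n (V u f.2))
    have e1 := ww_nonneg n (V u f.2)
    exact ww_eq_zero (by linarith) i.1
  · intro f hf
    have h1 : ∀ u, 0 < u → u < 1 → ρ0 n u (val u f) = cn (f.1 * u) := by
      intro u _ _
      have hV : ∀ k, (n k : ℤ) ∣ V u f.2 k := fun k =>
        dvd_V (n k) u f.2 k fun i hi _ => by rw [← hi]; exact hf i
      simp only [ρ0, val_apply]
      obtain ⟨m, hm⟩ := ang_int n hn _ hV
      rw [ww_of_dvd hV, hm, cn_add_int, add_zero]
    by_cases hz : f.1 = 0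
    · left
      rw [(R0 n).N_congr f _ h1]
      simp [hz, cn_zero]
    · right
      rw [(R0 n).N_congr f _ h1, integral_cn f.1 hz]
  · exact ⟨(1, 0), rfl, rfl⟩

theorem gadget_exists (d : ℕ) (h : Adm d n) : ∃ N Z C, IsGadget d n N Z C := by
  rcases h with ⟨rfl, h⟩ | ⟨_, h⟩
  · exact gadget_0 n h
  · exact gadget_d d n h

end

end Pool.Agent.H20R3.MG
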