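import Mathlib

namespace Pool.Agent.H20R3.MG

namespace GlueAux

def HasPaths {F : Type*} [AddCommGroup F] (N : F → ℝ) : Prop :=
  ∀ f : F, ∃ γ : ℝ → F, γ 0 = 0 ∧ γ 1 = f ∧
    (∀ s ∈ Set.Icc (0 : ℝ) 1, ∀ ε > 0, ∃ δ > 0, ∀ s' ∈ Set.Icc (0 : ℝ) 1,
      |s' - s| < δ → N (γ s' - γ s) < ε) ∧
    (∀ s ∈ Set.Icc (0 : ℝ) 1, N (γ s) < N f ∨ N (γ s - f) = 0)

def HasTop (G : Type*) [AddCommGroup G] : Prop :=
  ∃ τ : TopologicalSpace G, @IsTopologicalAddGroup G τ _ ∧ @T2Space G τ ∧
    @TopologicalSpace.MetrizableSpace G τ ∧ @PathConnectedSpace G τ ∧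
    ∀ (x : G) (U : Set G), @IsOpen G τ U → x ∈ U →
      ∃ V : Set G, @IsOpen G τ V ∧ x ∈ V ∧ @closure G τ V ⊆ U ∧
        @IsPathConnected G τ (@closure G τ V)

variable {G Λ F : Type*} [AddCommGroup G] [AddCommGroup F]

/-- The sum norm on the finitely supported functions. -/
noncomputable def NL (N : Λ → AddGroupSeminorm F) (ξ : Λ →₀ F) : ℝ :=
  ∑ a ∈ ξ.support, N a (ξ a)

theorem NL_eq_of_subset (N : Λ → AddGroupSeminorm F) (ξ : Λ →₀ F) (s : Finset Λ)
    (hs : ξ.support ⊆ s) : NL N ξ = ∑ a ∈ s, N a (ξ a) := by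
  unfold NL
  apply Finset.sum_subset hs
  intro a _ ha
  rw [Finsupp.notMem_support_iff] at ha
  rw [ha, map_zero]

theorem NL_nonneg (N : Λ → AddGroupSeminorm F) (ξ : Λ →₀ F) : 0 ≤ NL N ξ :=
  Finset.sum_nonneg fun _ _ => apply_nonneg _ _

theorem NL_zero (N : Λ → AddGroupSeminorm F) : NL N 0 = 0 := by
  simp [NL]

theorem NL_neg (N : Λ → AddGroupSeminorm F) (ξ : Λ →₀ F) : NL N (-ξ) = NL N ξ := by
  unfold NL
  rw [Finsupp.support_neg]
  apply Finset.sum_congr rfl
  intro a _
  rw [Finsupp.neg_apply, map_neg_eq_map]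

theorem NL_add_le (N : Λ → AddGroupSeminorm F) (ξ η : Λ →₀ F) :
    NL N (ξ + η) ≤ NL N ξ + NL N η := by
  classical
  rw [NL_eq_of_subset N (ξ + η) (ξ.support ∪ η.support) Finsupp.support_add,
    NL_eq_of_subset N ξ (ξ.support ∪ η.support) Finset.subset_union_left,
    NL_eq_of_subset N η (ξ.support ∪ η.support) Finset.subset_union_right,
    ← Finset.sum_add_distrib]
  apply Finset.sum_le_sum
  intro a _
  exact map_add_le_add (N a) _ _

theorem NL_sub_le (N : Λ → AddGroupSeminorm F) (ξ η : Λ →₀ F) :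
    NL N (ξ - η) ≤ NL N ξ + NL N η := by
  rw [sub_eq_add_neg, ← NL_neg N η]
  exact NL_add_le N ξ (-η)

theorem le_NL (N : Λ → AddGroupSeminorm F) (ξ : Λ →₀ F) (a : Λ) : N a (ξ a) ≤ NL N ξ := by
  classical
  by_cases ha : a ∈ ξ.support
  · exact Finset.single_le_sum (f := fun a => N a (ξ a)) (fun _ _ => apply_nonneg _ _) ha
  · rw [Finsupp.notMem_support_iff] at ha
    rw [ha, map_zero]
    exact NL_nonneg N ξ

theorem NL_eq_zero_iff (N : Λ → AddGroupSeminorm F) (ξ : Λ →₀ F) :
    NL N ξ = 0 ↔ ∀ a, N a (ξ a) = 0 := by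
  constructor
  · intro h a
    exact le_antisymm (h ▸ le_NL N ξ a) (apply_nonneg _ _)
  · intro h
    unfold NL
    exact Finset.sum_eq_zero fun a _ => h a

theorem NL_eq_of_sub_zero (N : Λ → AddGroupSeminorm F) (ξ η : Λ →₀ F) (h : NL N (ξ - η) = 0) :
    NL N ξ = NL N η := by
  apply le_antisymm
  · have := NL_add_le N (ξ - η) η
    rw [sub_add_cancel, h, zero_add] at this
    exact this
  · have h2 : NL N (η - ξ) = 0 := by rw [← neg_sub, NL_neg, h]
    have := NL_add_le N (η - ξ) ξ
    rw [sub_add_cancel, h2, zero_add] at this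
    exact this

theorem NL_hasPaths (N : Λ → AddGroupSeminorm F) (hpaths : ∀ a, HasPaths (N a)) :
    HasPaths (NL N) := by
  classical
  intro ξ
  choose γ hγ0 hγ1 hγc hγn using fun a => hpaths a (ξ a)
  let Γ : ℝ → (Λ →₀ F) := fun s => ∑ a ∈ ξ.support, Finsupp.single a (γ a s)
  have hΓapp : ∀ s a, a ∈ ξ.support → Γ s a = γ a s := by
    intro s a ha
    simp only [Γ, Finsupp.finsetSum_apply]
    rw [Finset.sum_eq_single a]
    · simp
    · intro b _ hb
      rw [Finsupp.single_apply, if_neg hb]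
    · intro h
      exact absurd ha h
  have hΓapp' : ∀ s a, a ∉ ξ.support → Γ s a = 0 := by
    intro s a ha
    simp only [Γ, Finsupp.finsetSum_apply]
    apply Finset.sum_eq_zero
    intro b hb
    rw [Finsupp.single_apply, if_neg]
    rintro rfl
    exact ha hb
  have hsupp : ∀ s, (Γ s).support ⊆ ξ.support := by
    intro s a ha
    by_contra h
    rw [Finsupp.mem_support_iff] at ha
    exact ha (hΓapp' s a h)
  refine ⟨Γ, ?_, ?_, ?_, ?_⟩
  · ext a
    by_cases ha : a ∈ ξ.support
    · rw [hΓapp 0 a ha, hγ0]; rfl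
    · rw [hΓapp' 0 a ha]; rfl
  · ext a
    by_cases ha : a ∈ ξ.support
    · rw [hΓapp 1 a ha, hγ1]
    · rw [hΓapp' 1 a ha]
      rw [Finsupp.notMem_support_iff] at ha
      exact ha.symm
  · intro s hs ε hε
    have hcard : (0 : ℝ) < (ξ.support.card : ℝ) + 1 := by positivity
    have hε' : 0 < ε / ((ξ.support.card : ℝ) + 1) := div_pos hε hcard
    choose d hd0 hd using fun a => hγc a s hs _ hε'
    obtain ⟨D, hD0, hD⟩ : ∃ D : ℝ, 0 < D ∧ ∀ a ∈ ξ.support, D ≤ d a := by
      have : ∀ t : Finset Λ, ∃ D : ℝ, 0 < D ∧ ∀ a ∈ t, D ≤ d a := by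
        intro t
        induction t using Finset.induction_on with
        | empty => exact ⟨1, one_pos, by simp⟩
        | insert a t _ ih =>
          obtain ⟨D, hD0, hD⟩ := ih
          refine ⟨min D (d a), lt_min hD0 (hd0 a), ?_⟩
          intro b hb
          rw [Finset.mem_insert] at hb
          rcases hb with rfl | hb
          · exact min_le_right _ _
          · exact le_trans (min_le_left _ _) (hD b hb)
      exact this _
    refine ⟨D, hD0, ?_⟩
    intro s' hs' hss
    have hsub : (Γ s' - Γ s).support ⊆ ξ.support := by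
      intro a ha
      by_contra h
      rw [Finsupp.mem_support_iff] at ha
      apply ha
      rw [Finsupp.sub_apply, hΓapp' s' a h, hΓapp' s a h, sub_zero]
    rw [NL_eq_of_subset N _ _ hsub]
    calc ∑ a ∈ ξ.support, N a ((Γ s' - Γ s) a)
        ≤ ∑ a ∈ ξ.support, ε / ((ξ.support.card : ℝ) + 1) := by
          apply Finset.sum_le_sum
          intro a ha
          rw [Finsupp.sub_apply, hΓapp s' a ha, hΓapp s a ha]
          exact (hd a s' hs' (lt_of_lt_of_le hss (hD a ha))).le
      _ = (ξ.support.card : ℝ) * (ε / ((ξ.support.card : ℝ) + 1)) := by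
          rw [Finset.sum_const, nsmul_eq_mul]
      _ < ((ξ.support.card : ℝ) + 1) * (ε / ((ξ.support.card : ℝ) + 1)) := by
          apply mul_lt_mul_of_pos_right _ hε'
          linarith
      _ = ε := by field_simp
  · intro s hs
    by_cases hall : ∀ a ∈ ξ.support, N a (γ a s - ξ a) = 0
    · right
      rw [NL_eq_zero_iff]
      intro a
      by_cases ha : a ∈ ξ.support
      · rw [Finsupp.sub_apply, hΓapp s a ha]
        exact hall a ha
      · rw [Finsupp.sub_apply, hΓapp' s a ha]
        rw [Finsupp.notMem_support_iff] at ha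
        rw [ha, sub_zero, map_zero]
    · left
      push Not at hall
      obtain ⟨a₀, ha₀, hne⟩ := hall
      rw [NL_eq_of_subset N _ _ (hsupp s)]
      unfold NL
      apply Finset.sum_lt_sum
      · intro a ha
        rw [hΓapp s a ha]
        rcases hγn a s hs with h | h
        · exact h.le
        · have := map_add_le_add (N a) (γ a s - ξ a) (ξ a)
          rw [sub_add_cancel, h, zero_add] at this
          exact this
      · refine ⟨a₀, ha₀, ?_⟩
        rw [hΓapp s a₀ ha₀]
        rcases hγn a₀ s hs with h | h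
        · exact h
        · exact absurd h hne

/-- The sum map. -/
noncomputable def PP (π : Λ → F →+ G) : (Λ →₀ F) →+ G := Finsupp.liftAddHom π

theorem PP_apply (π : Λ → F →+ G) (ξ : Λ →₀ F) : PP π ξ = ξ.sum fun a f => π a f := by
  rfl

theorem PP_surj (π : Λ → F →+ G) (hsurj : ∀ g : G, g ∈ ⨆ a, (π a).range) (g : G) :
    ∃ ξ, PP π ξ = g := by
  classical
  have h : (⨆ a, (π a).range) ≤ (PP π).range := by
    apply iSup_le
    rintro a _ ⟨f, rfl⟩
    refine ⟨Finsupp.single a f, ?_⟩
    rw [PP_apply]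
    exact Finsupp.sum_single_index (h := fun a f => π a f) (map_zero (π a))
  exact h (hsurj g)

section norm

variable (N : Λ → AddGroupSeminorm F) (π : Λ → F →+ G)

/-- The quotient norm. -/
noncomputable def NG (g : G) : ℝ := sInf (NL N '' {ξ | PP π ξ = g})

theorem NG_le (ξ : Λ →₀ F) : NG N π (PP π ξ) ≤ NL N ξ := by
  apply csInf_le
  · refine ⟨0, ?_⟩
    rintro _ ⟨η, _, rfl⟩
    exact NL_nonneg N η
  · exact ⟨ξ, rfl, rfl⟩

variable {N π} in
theorem exists_near (hs : ∀ g : G, ∃ ξ, PP π ξ = g) (g : G) {ε : ℝ} (hε : 0 < ε) :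
    ∃ ξ, PP π ξ = g ∧ NL N ξ < NG N π g + ε := by
  have hne : (NL N '' {ξ | PP π ξ = g}).Nonempty := by
    obtain ⟨ξ, hξ⟩ := hs g
    exact ⟨_, ξ, hξ, rfl⟩
  obtain ⟨_, ⟨ξ, hξ, rfl⟩, hlt⟩ := exists_lt_of_csInf_lt hne
    (show sInf (NL N '' {ξ | PP π ξ = g}) < NG N π g + ε by unfold NG; linarith)
  exact ⟨ξ, hξ, hlt⟩

theorem NG_nonneg (g : G) : 0 ≤ NG N π g := by
  apply Real.sInf_nonneg
  rintro _ ⟨η, _, rfl⟩
  exact NL_nonneg N η

variable {N π} in
theorem NG_attained (δ : ℝ) (hs : ∀ g : G, ∃ ξ, PP π ξ = g)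
    (hker : ∀ ξ : Λ →₀ F, (ξ.sum fun a f => π a f) = 0 →
      (∀ a, N a (ξ a) = 0) ∨ ∃ a, δ ≤ N a (ξ a)) (g : G) (hg : NG N π g < δ / 2) :
    ∃ ξ, PP π ξ = g ∧ NL N ξ = NG N π g := by
  obtain ⟨ξ, hξ, hlt⟩ := exists_near (N := N) hs g (show 0 < δ / 2 - NG N π g by linarith)
  refine ⟨ξ, hξ, ?_⟩
  apply le_antisymm
  · apply le_of_forall_pos_le_add
    intro ε hε
    obtain ⟨η, hη, hlt'⟩ := exists_near (N := N) hs g
      (show 0 < min ε (δ / 2 - NG N π g) from lt_min hε (by linarith))
    have h0 : PP π (ξ - η) = 0 := by rw [map_sub, hξ, hη, sub_self]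
    have h1 : NL N (ξ - η) = 0 := by
      rcases hker (ξ - η) h0 with h | ⟨a, ha⟩
      · exact (NL_eq_zero_iff N _).2 h
      · exfalso
        have h2 := le_NL N (ξ - η) a
        have h3 := NL_sub_le N ξ η
        have h4 := min_le_right ε (δ / 2 - NG N π g)
        linarith
    rw [NL_eq_of_sub_zero N ξ η h1]
    have h4 := min_le_left ε (δ / 2 - NG N π g)
    linarith
  · rw [← hξ]
    exact NG_le N π ξ

end norm

end GlueAux

open GlueAux in
theorem glue' {G Λ F : Type*} [AddCommGroup G] [AddCommGroup F] (N : Λ → AddGroupSeminorm F)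
    (π : Λ → F →+ G) (δ : ℝ) (hδ : 0 < δ)
    (hpaths : ∀ a, HasPaths (N a)) (hsurj : ∀ g : G, g ∈ ⨆ a, (π a).range)
    (hker : ∀ ξ : Λ →₀ F, (ξ.sum fun a f => π a f) = 0 →
      (∀ a, N a (ξ a) = 0) ∨ ∃ a, δ ≤ N a (ξ a))
    (hnull : ∀ a f, N a f = 0 → π a f = 0) : HasTop G := by
  classical
  have hs : ∀ g : G, ∃ ξ, PP π ξ = g := PP_surj π hsurj
  have hPnull : ∀ ξ, NL N ξ = 0 → PP π ξ = 0 := by
    intro ξ hξ
    rw [PP_apply, Finsupp.sum]
    apply Finset.sum_eq_zero
    intro a _
    exact hnull a _ ((NL_eq_zero_iff N ξ).1 hξ a)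
  let nrm : AddGroupNorm G :=
    { toFun := NG N π
      map_zero' := by
        apply le_antisymm
        · have := NG_le N π 0
          rw [map_zero, NL_zero] at this
          exact this
        · exact NG_nonneg N π 0
      add_le' := by
        intro g h
        apply le_of_forall_pos_le_add
        intro ε hε
        obtain ⟨ξ, hξ, h1⟩ := exists_near (N := N) hs g (half_pos hε)
        obtain ⟨η, hη, h2⟩ := exists_near (N := N) hs h (half_pos hε)
        have h3 := NG_le N π (ξ + η)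
        rw [map_add, hξ, hη] at h3
        have h4 := NL_add_le N ξ η
        linarith
      neg' := by
        have key : ∀ g, NG N π (-g) ≤ NG N π g := by
          intro g
          apply le_of_forall_pos_le_add
          intro ε hε
          obtain ⟨ξ, hξ, h1⟩ := exists_near (N := N) hs g hε
          have h3 := NG_le N π (-ξ)
          rw [map_neg, hξ, NL_neg] at h3
          linarith
        intro g
        apply le_antisymm (key g)
        have := key (-g)
        rwa [neg_neg] at this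
      eq_zero_of_map_eq_zero' := by
        intro g hg
        obtain ⟨ξ, hξ, h1⟩ := NG_attained (N := N) δ hs hker g
          (by
            have : NG N π g = 0 := hg
            rw [this]; linarith)
        have : NG N π g = 0 := hg
        rw [← hξ]
        exact hPnull ξ (h1.trans this) }
  let inst : NormedAddCommGroup G := nrm.toNormedAddCommGroup
  have hnorm : ∀ g : G, ‖g‖ = NG N π g := fun _ => rfl
  -- joining
  have hjoin : ∀ (ξ : Λ →₀ F) (x : G) (W : Set G),
      (∀ η, NL N η < NL N ξ ∨ NL N (η - ξ) = 0 → x + PP π η ∈ W) →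
      JoinedIn W x (x + PP π ξ) := by
    intro ξ x W hW
    obtain ⟨Γ, h0, h1, hc, hn⟩ := NL_hasPaths N hpaths ξ
    apply JoinedIn.ofLine (f := fun s => x + PP π (Γ s))
    · apply ContinuousOn.add continuousOn_const
      rw [Metric.continuousOn_iff]
      intro s hs' ε hε
      obtain ⟨d, hd0, hd⟩ := hc s hs' ε hε
      refine ⟨d, hd0, ?_⟩
      intro s' hs'' hdist
      rw [Real.dist_eq] at hdist
      rw [dist_eq_norm, ← map_sub, hnorm]
      exact lt_of_le_of_lt (NG_le N π _) (hd s' hs'' hdist)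
    · simp [h0]
    · simp [h1]
    · rintro _ ⟨s, hs', rfl⟩
      exact hW _ (hn s hs')
  refine ⟨inferInstance, inferInstance, inferInstance, inferInstance, ?_, ?_⟩
  · rw [pathConnectedSpace_iff_univ]
    refine ⟨0, Set.mem_univ _, ?_⟩
    intro g _
    obtain ⟨ξ, hξ⟩ := hs g
    have := hjoin ξ 0 Set.univ (fun _ _ => Set.mem_univ _)
    rw [zero_add, hξ] at this
    exact this
  · intro x U hU hx
    obtain ⟨ρ, hρ, hball⟩ := Metric.isOpen_iff.1 hU x hx
    have hr : 0 < min (ρ / 2) (δ / 4) := lt_min (by linarith) (by linarith)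
    refine ⟨Metric.ball x (min (ρ / 2) (δ / 4)), Metric.isOpen_ball,
      Metric.mem_ball_self hr, ?_, ?_⟩
    · refine subset_trans Metric.closure_ball_subset_closedBall (subset_trans ?_ hball)
      apply Metric.closedBall_subset_ball
      have := min_le_left (ρ / 2) (δ / 4)
      linarith
    · refine ⟨x, subset_closure (Metric.mem_ball_self hr), ?_⟩
      intro y hy
      have hy1 : dist y x ≤ min (ρ / 2) (δ / 4) := Metric.closure_ball_subset_closedBall hy
      have hyn : NG N π (y - x) ≤ min (ρ / 2) (δ / 4) := by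
        rw [dist_eq_norm, hnorm] at hy1
        exact hy1
      obtain ⟨ξ, hξ, h1⟩ := NG_attained (N := N) δ hs hker (y - x)
        (by
          have := min_le_right (ρ / 2) (δ / 4)
          linarith)
      have hxy : x + PP π ξ = y := by rw [hξ]; abel
      rw [← hxy]
      apply hjoin
      intro η hη
      rcases hη with h | h
      · apply subset_closure
        rw [Metric.mem_ball, dist_eq_norm, add_sub_cancel_left, hnorm]
        calc NG N π (PP π η) ≤ NL N η := NG_le N π η
          _ < NL N ξ := h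
          _ = NG N π (y - x) := h1
          _ ≤ _ := hyn
      · have h2 : PP π η = PP π ξ := by
          have := hPnull _ h
          rw [map_sub, sub_eq_zero] at this
          exact this
        rw [h2, hxy]
        exact hy

end Pool.Agent.H20R3.MG
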