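import Mathlib
import Pool.Agent.H20R3.MG.Defs
import Pool.Agent.H20R3.MG.Glue
import Pool.Agent.H20R3.MG.Gad0c

namespace Pool.Agent.H20R3.MG

universe u

theorem glue {G Λ F : Type*} [AddCommGroup G] [AddCommGroup F] (N : Λ → AddGroupSeminorm F)
    (π : Λ → F →+ G) (δ : ℝ) (hδ : 0 < δ) (hpaths : ∀ a, HasPaths (N a))
    (hsurj : ∀ g : G, g ∈ ⨆ a, (π a).range)
    (hker : ∀ ξ : Λ →₀ F, (ξ.sum fun a f => π a f) = 0 →
      (∀ a, N a (ξ a) = 0) ∨ ∃ a, δ ≤ N a (ξ a))
    (hnull : ∀ a f, N a f = 0 → π a f = 0) : HasTop G :=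
  glue' N π δ hδ hpaths hsurj hker hnull

theorem zsmul_eq_zero_of_dvd {G : Type u} [AddCommGroup G] (d : ℕ) (g : G) (hg : d • g = 0)
    (m : ℤ) (hm : (d : ℤ) ∣ m) : m • g = 0 := by
  obtain ⟨k, rfl⟩ := hm
  rw [mul_comm, mul_smul, natCast_zsmul, hg, smul_zero]

/-- The linear combination map. -/
noncomputable def cmb {G : Type u} [AddCommGroup G] (x : I → G) : (I →₀ ℤ) →+ G :=
  Finsupp.liftAddHom (fun i => zmultiplesHom G (x i))

theorem cmb_apply {G : Type u} [AddCommGroup G] (x : I → G) (c : I →₀ ℤ) :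
    cmb x c = c.sum fun i m => m • x i := rfl

theorem hasTop_of_hasSystem (G : Type u) [AddCommGroup G] (h : HasSystem G) : HasTop G := by
  classical
  obtain ⟨Λ, _, d, n, g, x, hadm, hdg, hnx, hcl, hind⟩ := h
  choose N Z C hG using fun a => gadget_exists (n a) (d a) (hadm a)
  let π : Λ → F →+ G := fun a => (zmultiplesHom G (g a)).comp (Z a) + (cmb (x a)).comp (C a)
  have hπ : ∀ a f, π a f = Z a f • g a + (C a f).sum fun i m => m • x a i := fun a f => rfl
  apply glue N π (1 / 4) (by norm_num) (fun a => (hG a).1)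
  · intro y
    have hy : y ∈ AddSubgroup.closure (Set.range g) := by rw [hcl]; exact AddSubgroup.mem_top y
    refine (AddSubgroup.closure_le _).2 ?_ hy
    rintro _ ⟨a, rfl⟩
    obtain ⟨c, hc1, hc2⟩ := (hG a).2.2.2
    refine AddSubgroup.mem_iSup_of_mem a ⟨c, ?_⟩
    rw [hπ, hc1, hc2, one_smul, Finsupp.sum_zero_index, add_zero]
  · intro ξ hξ
    by_cases hall : ∀ a, N a (ξ a) = 0
    · exact Or.inl hall
    · right
      push Not at hall
      obtain ⟨a₀, ha₀⟩ := hall
      let A : Finset Λ := ξ.support.filter (fun a => N a (ξ a) ≠ 0)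
      have hAmem : ∀ a, N a (ξ a) ≠ 0 → a ∈ A := by
        intro a ha
        rw [Finset.mem_filter, Finsupp.mem_support_iff]
        refine ⟨?_, ha⟩
        intro h0
        apply ha
        rw [h0, map_zero]
      have hAne : A.Nonempty := ⟨a₀, hAmem a₀ ha₀⟩
      refine ⟨A.max' hAne, ?_⟩
      have hmaxmem := A.max'_mem hAne
      set a := A.max' hAne with hadef
      have hmax : ∀ b ∈ A, b ≤ a := fun b hb => A.le_max' b hb
      have hdiv : ∀ i, (n a i.1 : ℤ) ∣ C a (ξ a) i := by
        by_contra hcon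
        push Not at hcon
        obtain ⟨i, hi⟩ := hcon
        let z : Λ →₀ ℤ := Finsupp.onFinset ξ.support (fun a => Z a (ξ a)) (by
          intro b hb
          rw [Finsupp.mem_support_iff]
          intro h0
          apply hb
          rw [h0, map_zero])
        have hz : ∀ b, z b = Z b (ξ b) := fun b => rfl
        obtain ⟨b, hab, hb⟩ := hind z (fun b => C b (ξ b)) ξ.support
          (by
            intro b hb
            rw [Finsupp.notMem_support_iff] at hb
            rw [hz, hb, map_zero, map_zero]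
            exact ⟨rfl, rfl⟩)
          (by
            rw [← hξ, Finsupp.sum]
            apply Finset.sum_congr rfl
            intro b _
            rw [hπ, hz])
          a i hi
        have hNb : N b (ξ b) ≠ 0 := by
          intro h0
          have h1 := (hG b).2.1 (ξ b) h0
          rcases hb with hb | ⟨i', hb⟩
          · exact hb h1.1
          · exact hb (h1.2 i')
        exact absurd (hmax b (hAmem b hNb)) (not_le.2 hab)
      rcases (hG a).2.2.1 (ξ a) hdiv with h | h
      · exact absurd h (Finset.mem_filter.1 hmaxmem).2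
      · exact h
  · intro a f hf
    have h1 := (hG a).2.1 f hf
    rw [hπ, zsmul_eq_zero_of_dvd (d a) (g a) (hdg a) _ h1.1, zero_add, Finsupp.sum]
    apply Finset.sum_eq_zero
    intro i _
    exact zsmul_eq_zero_of_dvd (n a i.1) (x a i) (hnx a i) _ (h1.2 i)

end Pool.Agent.H20R3.MG
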