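import Mathlib

open Cardinal

universe u

namespace Pool.Agent.H20R3.MG

namespace GenericAux

variable {G : Type u} [AddCommGroup G]

theorem crit (Y : AddSubgroup G) (n : ℕ) (hn : n ≠ 0) (x : G) (hx : n • x = 0)
    (hp : ∀ p : ℕ, p.Prime → p ∣ n → (n / p) • x ∉ Y) :
    addOrderOf x = n ∧ ∀ m : ℤ, m • x ∈ Y → m • x = 0 := by
  have hpos : 0 < n := Nat.pos_of_ne_zero hn
  have h1 : addOrderOf x = n := by
    apply addOrderOf_eq_of_nsmul_and_div_prime_nsmul hpos hx
    intro p hpp hpd h0
    exact hp p hpp hpd (h0 ▸ Y.zero_mem)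
  refine ⟨h1, ?_⟩
  intro m hm
  by_contra hne
  have hg : (Int.gcd m n) • x ∈ Y := by
    have h2 : ((Int.gcd m n : ℕ) : ℤ) • x ∈ Y := by
      rw [Int.gcd_eq_gcd_ab, add_smul]
      apply Y.add_mem
      · rw [mul_comm, mul_smul]
        exact Y.zsmul_mem hm _
      · rw [mul_comm, mul_smul, natCast_zsmul, hx, smul_zero]
        exact Y.zero_mem
    rwa [natCast_zsmul] at h2
  have hgn : Int.gcd m n ∣ n := by
    have := Int.gcd_dvd_right m (n : ℤ)
    exact_mod_cast this
  obtain ⟨k, hk⟩ := hgn
  have hk1 : k ≠ 1 := by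
    rintro rfl
    rw [mul_one] at hk
    apply hne
    have h3 : (n : ℤ) ∣ m := by
      have := Int.gcd_dvd_left m (n : ℤ)
      rw [← hk] at this
      exact this
    obtain ⟨l, rfl⟩ := h3
    rw [mul_comm, mul_smul, natCast_zsmul, hx, smul_zero]
  obtain ⟨p, hpp, l, rfl⟩ := Nat.exists_prime_and_dvd hk1
  apply hp p hpp (by rw [hk]; exact ⟨Int.gcd m n * l, by ring⟩)
  have h4 : n / p = l * Int.gcd m n := by
    apply Nat.div_eq_of_eq_mul_left hpp.pos
    calc n = Int.gcd m n * (p * l) := hk
      _ = _ := by ring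
  rw [h4, mul_smul]
  exact Y.nsmul_mem hg _

theorem fib (Y H : AddSubgroup G) (μ : Cardinal.{u}) (hμ : ℵ₀ ≤ μ) (hY : #Y ≤ μ) (p : ℕ)
    (hH : ∀ y ∈ H, p • y = 0 → y ∈ Y) (S T : Set G) (hS : ∀ y ∈ S, y ∈ H)
    (hT : #T ≤ μ) (hST : ∀ y ∈ S, p • y ∈ T) : #S ≤ μ := by
  let f : S → T := fun y => ⟨p • y.1, hST y.1 y.2⟩
  have h1 : #S ≤ #T * μ := by
    apply Cardinal.mk_le_mk_mul_of_mk_preimage_le f
    intro b
    rcases Set.eq_empty_or_nonempty (f ⁻¹' {b}) with h | ⟨s₀, hs₀⟩
    · rw [h]
      simp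
    · refine le_trans ?_ hY
      have hmem : ∀ s : f ⁻¹' {b}, (s.1.1 - s₀.1 : G) ∈ Y := by
        intro s
        apply hH
        · exact H.sub_mem (hS _ s.1.2) (hS _ s₀.2)
        · have h2 : f s.1 = b := s.2
          have h3 : f s₀ = b := hs₀
          have h4 : p • s.1.1 = p • s₀.1 := congrArg Subtype.val (h2.trans h3.symm)
          rw [smul_sub, h4, sub_self]
      apply Cardinal.mk_le_of_injective (f := fun s : f ⁻¹' {b} => (⟨s.1.1 - s₀.1, hmem s⟩ : Y))
      intro s s' hss
      have h5 : s.1.1 - s₀.1 = s'.1.1 - s₀.1 := congrArg Subtype.val hss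
      apply Subtype.ext
      apply Subtype.ext
      exact sub_left_injective h5
  calc #S ≤ #T * μ := h1
    _ ≤ μ * μ := by gcongr
    _ = μ := Cardinal.mul_eq_self hμ

theorem fibAll (Y H : AddSubgroup G) (μ : Cardinal.{u}) (hμ : ℵ₀ ≤ μ) (hY : #Y ≤ μ)
    (hH : ∀ p : ℕ, p.Prime → ∀ y ∈ H, p • y = 0 → y ∈ Y) (r : ℕ) (hr : r ≠ 0) :
    #({x : G | x ∈ H ∧ r • x ∈ Y} : Set G) ≤ μ := by
  revert hr
  refine induction_on_primes (motive := fun r => r ≠ 0 →
    #({x : G | x ∈ H ∧ r • x ∈ Y} : Set G) ≤ μ) ?_ ?_ ?_ r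
  · intro h
    exact absurd rfl h
  · intro _
    refine le_trans ?_ hY
    apply Cardinal.mk_le_mk_of_subset
    rintro x ⟨_, hx⟩
    rwa [one_smul] at hx
  · intro p a hp ih hpa
    have ha : a ≠ 0 := by
      rintro rfl
      exact hpa (mul_zero p)
    apply fib Y H μ hμ hY p (hH p hp) _ {x : G | x ∈ H ∧ a • x ∈ Y} _ (ih ha)
    · rintro y ⟨hy, hy'⟩
      refine ⟨H.nsmul_mem hy _, ?_⟩
      rw [mul_comm, mul_smul] at hy'
      exact hy'
    · rintro y ⟨hy, _⟩
      exact hy

end GenericAux

open GenericAux in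
theorem exists_generic {G : Type u} [AddCommGroup G] (Y : AddSubgroup G) (μ : Cardinal.{u})
    (hμ : ℵ₀ ≤ μ) (hY : #Y ≤ μ) (d : ℕ)
    (hd : #(Set.range fun x : G => d • x) ≤ μ)
    (hm : ∀ m : ℕ, 1 ≤ m → m ∣ d → m ≠ d → μ < #(Set.range fun x : G => m • x))
    (hd1 : d ≠ 1) (q : ℕ) :
    ∃ x : G, (d ≠ 0 → addOrderOf x = d) ∧ (d = 0 → addOrderOf x = 0 ∨ q < addOrderOf x) ∧
      ∀ m : ℤ, m • x ∈ Y → m • x = 0 := by
  classical
  rcases eq_or_ne d 0 with rfl | hd0
  · -- `d = 0`
    have hq : q.factorial ≠ 0 := Nat.factorial_ne_zero q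
    have hbig : μ < #(Set.range fun x : G => q.factorial • x) :=
      hm _ (Nat.pos_of_ne_zero hq) (dvd_zero _) hq
    let H : AddSubgroup G := (nsmulAddMonoidHom (α := G) q.factorial).range
    have hHmem : ∀ y : G, y ∈ H ↔ ∃ x, q.factorial • x = y := by
      intro y
      exact AddMonoidHom.mem_range
    by_cases hcase : ∀ p : ℕ, p.Prime → ∀ y ∈ H, p • y = 0 → y ∈ Y
    · -- torsion of `H` inside `Y`
      by_cases hex : ∃ x ∈ H, ∀ r : ℕ, r ≠ 0 → r • x ∉ Y
      · obtain ⟨x, _, hx⟩ := hex
        refine ⟨x, fun h => absurd rfl h, fun _ => Or.inl ?_, ?_⟩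
        · by_contra h0
          apply hx _ h0
          rw [addOrderOf_nsmul_eq_zero]
          exact Y.zero_mem
        · intro m hmx
          by_contra hne
          have hm0 : m ≠ 0 := by
            rintro rfl
            exact hne (zero_smul _ _)
          apply hx m.natAbs (Int.natAbs_ne_zero.2 hm0)
          rw [← natCast_zsmul]
          rcases Int.natAbs_eq m with h | h
          · rw [← h]
            exact hmx
          · have h6 : (m.natAbs : ℤ) = -m := by omega
            rw [h6, neg_smul]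
            exact Y.neg_mem hmx
      · exfalso
        push Not at hex
        have h1 : (Set.range fun x : G => q.factorial • x) ⊆
            ⋃ r : {r : ℕ // r ≠ 0}, {x : G | x ∈ H ∧ r.1 • x ∈ Y} := by
          rintro y ⟨x, rfl⟩
          have hy : q.factorial • x ∈ H := (hHmem _).2 ⟨x, rfl⟩
          obtain ⟨r, hr, hrx⟩ := hex _ hy
          exact Set.mem_iUnion.2 ⟨⟨r, hr⟩, hy, hrx⟩
        have h2 := Cardinal.mk_le_mk_of_subset h1
        have h3 : #(⋃ r : {r : ℕ // r ≠ 0}, {x : G | x ∈ H ∧ r.1 • x ∈ Y} : Set G) ≤ μ := by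
          have h4 := Cardinal.mk_iUnion_le_sum_mk_lift
            (f := fun r : {r : ℕ // r ≠ 0} => {x : G | x ∈ H ∧ r.1 • x ∈ Y})
          have h5 : Cardinal.sum (fun r : {r : ℕ // r ≠ 0} =>
              #({x : G | x ∈ H ∧ r.1 • x ∈ Y} : Set G)) ≤
              Cardinal.sum (fun _ : {r : ℕ // r ≠ 0} => μ) :=
            Cardinal.sum_le_sum _ _ fun r => fibAll Y H μ hμ hY hcase r.1 r.2
          rw [Cardinal.sum_const] at h5
          have h6 := h4.trans h5
          rw [Cardinal.lift_uzero, Cardinal.lift_uzero] at h6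
          refine h6.trans ?_
          calc Cardinal.lift.{u} #{r : ℕ // r ≠ 0} * μ ≤ μ * μ := by
                gcongr
                refine le_trans ?_ hμ
                rw [Cardinal.lift_le_aleph0]
                exact Cardinal.mk_le_aleph0
            _ = μ := Cardinal.mul_eq_self hμ
        exact absurd (h2.trans h3) (not_le.2 hbig)
    · push Not at hcase
      obtain ⟨p, hp, y, hyH, hpy, hyY⟩ := hcase
      obtain ⟨x, rfl⟩ := (hHmem y).1 hyH
      obtain ⟨s, r, hr, hsr⟩ := Nat.exists_eq_pow_mul_and_not_dvd hq p hp.ne_one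
      have hpow : p ^ (s + 1) ≠ 0 := pow_ne_zero _ hp.ne_zero
      have hA := crit Y (p ^ (s + 1)) hpow (r • x)
        (by
          rw [← mul_smul]
          have : p ^ (s + 1) * r = p * q.factorial := by rw [hsr]; ring
          rw [this, mul_smul, hpy])
        (by
          intro p' hp' hdvd
          have hpp : p' = p := (Nat.prime_dvd_prime_iff_eq hp' hp).1 (hp'.dvd_of_dvd_pow hdvd)
          subst hpp
          have h7 : p' ^ (s + 1) / p' = p' ^ s := by
            rw [pow_succ]
            exact Nat.mul_div_cancel _ hp.pos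
          rw [h7, ← mul_smul, ← hsr]
          exact hyY)
      refine ⟨r • x, fun h => absurd rfl h, fun _ => Or.inr ?_, hA.2⟩
      rw [hA.1]
      by_contra hle
      push Not at hle
      have h8 : p ^ (s + 1) ∣ q.factorial := Nat.dvd_factorial (Nat.pos_of_ne_zero hpow) hle
      rw [hsr, pow_succ] at h8
      have h9 : p ∣ r := Nat.dvd_of_mul_dvd_mul_left (pow_pos hp.pos s) h8
      exact hr h9
  · -- `d ≠ 0`
    have hz : ∀ p : ℕ, p.Prime → p ∣ d → ∃ z : G, d • z = 0 ∧ (d / p) • z ∉ Y := by
      intro p hp hpd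
      by_contra hcon
      push Not at hcon
      have hdp : d / p ≠ 0 := Nat.div_ne_zero_iff.2 ⟨hp.ne_zero, Nat.le_of_dvd (Nat.pos_of_ne_zero hd0) hpd⟩
      have hdp' : d / p ≠ d := (Nat.div_lt_self (Nat.pos_of_ne_zero hd0) hp.one_lt).ne
      have hbig := hm (d / p) (Nat.pos_of_ne_zero hdp) (Nat.div_dvd_of_dvd hpd) hdp'
      have hsm : #(Set.range fun x : G => (d / p) • x) ≤ μ := by
        apply fib Y (nsmulAddMonoidHom (α := G) (d / p)).range μ hμ hY p ?_ _
          (Set.range fun x : G => d • x) ?_ hd ?_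
        · rintro _ ⟨z, rfl⟩ hz
          apply hcon z
          rw [← hz]
          show d • z = p • ((d / p) • z)
          rw [← mul_smul, Nat.mul_div_cancel' hpd]
        · rintro _ ⟨z, rfl⟩
          exact ⟨z, rfl⟩
        · rintro _ ⟨z, rfl⟩
          refine ⟨z, ?_⟩
          show d • z = p • ((d / p) • z)
          rw [← mul_smul, Nat.mul_div_cancel' hpd]
      exact absurd hsm (not_le.2 hbig)
    choose! z hz1 hz2 using hz
    let x : G := ∑ p ∈ d.primeFactors, (d / p ^ (d.factorization p)) • z p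
    have hA := crit Y d hd0 x
      (by
        rw [Finset.smul_sum]
        apply Finset.sum_eq_zero
        intro p hp
        rw [← mul_smul, mul_comm, mul_smul,
          hz1 p (Nat.prime_of_mem_primeFactors hp) (Nat.dvd_of_mem_primeFactors hp), smul_zero])
      (by
        intro p hp hpd hmem
        have hpm : p ∈ d.primeFactors := Nat.mem_primeFactors.2 ⟨hp, hpd, hd0⟩
        have h1 : (d / p) • x = (d / p) • ((d / p ^ (d.factorization p)) • z p) := by
          show (d / p) • (∑ p ∈ d.primeFactors, (d / p ^ (d.factorization p)) • z p) = _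
          rw [Finset.smul_sum]
          apply Finset.sum_eq_single_of_mem p hpm
          intro p' hp' hne
          have hp'p := Nat.prime_of_mem_primeFactors hp'
          rw [← mul_smul]
          have h2 : d ∣ (d / p) * (d / p' ^ (d.factorization p')) := by
            have h3 : p' ^ (d.factorization p') ∣ d / p := by
              have h4 : p' ^ (d.factorization p') ∣ p * (d / p) := by
                rw [Nat.mul_div_cancel' hpd]
                exact Nat.ordProj_dvd d p'
              apply Nat.Coprime.dvd_of_dvd_mul_left _ h4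
              apply Nat.Coprime.pow_left
              exact (Nat.coprime_primes hp'p hp).2 hne
            obtain ⟨c, hc⟩ := h3
            rw [hc]
            refine ⟨c, ?_⟩
            have h5 : p' ^ (d.factorization p') * (d / p' ^ (d.factorization p')) = d :=
              Nat.mul_div_cancel' (Nat.ordProj_dvd d p')
            calc p' ^ (d.factorization p') * c * (d / p' ^ (d.factorization p'))
                = (p' ^ (d.factorization p') * (d / p' ^ (d.factorization p'))) * c := by ring
              _ = d * c := by rw [h5]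
          obtain ⟨c, hc⟩ := h2
          rw [hc, mul_comm, mul_smul, hz1 p' hp'p (Nat.dvd_of_mem_primeFactors hp'), smul_zero]
        rw [h1, ← mul_smul, mul_comm, mul_smul] at hmem
        -- multiply by an inverse mod p
        have hcop : Nat.Coprime (d / p ^ (d.factorization p)) p :=
          (Nat.coprime_ordCompl hp hd0).symm
        apply hz2 p hp hpd
        have hpz : p • ((d / p) • z p) = 0 := by
          rw [← mul_smul, Nat.mul_div_cancel' hpd]
          exact hz1 p hp hpd
        have hb := Int.gcd_eq_gcd_ab ((d / p ^ (d.factorization p) : ℕ) : ℤ) (p : ℤ)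
        have hb1 : Int.gcd ((d / p ^ (d.factorization p) : ℕ) : ℤ) (p : ℤ) = 1 := by
          rw [Int.gcd_natCast_natCast]
          exact hcop
        rw [hb1] at hb
        have h6 : ((d / p) • z p) = ((1 : ℕ) : ℤ) • ((d / p) • z p) := by simp
        rw [h6, hb, add_smul]
        apply Y.add_mem
        · rw [mul_comm, mul_smul, natCast_zsmul]
          exact Y.zsmul_mem hmem _
        · rw [mul_comm, mul_smul, natCast_zsmul, hpz, smul_zero]
          exact Y.zero_mem)
    exact ⟨x, fun _ => hA.1, fun h => absurd h hd0, hA.2⟩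

end Pool.Agent.H20R3.MG
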