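import Mathlib
import Pool.Agent.H20R3.MG.Defs
import Pool.Agent.H20R3.MG.Generic

namespace Pool.Agent.H20R3.MG

open Cardinal Set

universe u

noncomputable section

variable (G : Type u) [AddCommGroup G]

/-- cardinality of `mG` -/
def cm (m : ℕ) : Cardinal.{u} := #(Set.range fun x : G => m • x)

/-- The M-group condition in terms of cardinalities. -/
def MCond : Prop := ∀ m : ℕ, 1 ≤ m → (∀ x : G, m • x = 0) ∨ 𝔠 ≤ cm G m

open Classical in
/-- the type at cardinal `μ` -/
def dd (μ : Cardinal.{u}) : ℕ :=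
  if h : ∃ m : ℕ, 1 ≤ m ∧ cm G m ≤ μ then Nat.find h else 0

variable {G}

lemma cm_zero : cm G 0 = 1 := by
  unfold cm
  have : (Set.range fun x : G => 0 • x) = {0} := by
    ext y; simp
  rw [this, mk_singleton]

lemma cm_one : cm G 1 = #G := by
  unfold cm
  have : (Set.range fun x : G => 1 • x) = Set.univ := by
    ext y; simp
  rw [this, mk_univ]

lemma dd_P1 (μ : Cardinal.{u}) (hμ : ℵ₀ ≤ μ) : cm G (dd G μ) ≤ μ := by
  classical
  unfold dd
  split_ifs with h
  · exact (Nat.find_spec h).2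
  · rw [cm_zero]; exact one_le_aleph0.trans hμ

lemma dd_P2 (μ : Cardinal.{u}) (m : ℕ) (hm : 1 ≤ m) (hd : m ∣ dd G μ) (hne : m ≠ dd G μ) :
    μ < cm G m := by
  classical
  unfold dd at hd hne
  split_ifs at hd hne with h
  · have h1 : m < Nat.find h := lt_of_le_of_ne (Nat.le_of_dvd (Nat.find_spec h).1 hd) hne
    have h2 := Nat.find_min h h1
    by_contra h3
    exact h2 ⟨hm, not_lt.1 h3⟩
  · by_contra h3
    exact h ⟨m, hm, not_lt.1 h3⟩

lemma dd_P3 (μ : Cardinal.{u}) (h : μ < #G) (hμ : ℵ₀ ≤ μ) : dd G μ ≠ 1 := by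
  intro h1
  have := dd_P1 (G := G) μ hμ
  rw [h1, cm_one] at this
  exact absurd h (not_lt.2 this)

/-- Lower bound for the number of elements with small initial segments. -/
lemma le_mk_small {L : Type u} [LinearOrder L] [WellFoundedLT L] (ν : Cardinal.{u})
    (hν : ν ≤ #L) : ν ≤ #{β : L | #(Iio β) < ν} := by
  by_contra hcon
  push Not at hcon
  have hne : {β : L | #(Iio β) < ν} ≠ Set.univ := by
    intro h
    rw [h, mk_univ] at hcon
    exact absurd hν (not_le.2 hcon)
  obtain ⟨β, hβ⟩ := (Set.ne_univ_iff_exists_notMem _).1 hne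
  obtain ⟨β₀, hβ₀, hmin⟩ := WellFounded.has_min (wellFounded_lt (α := L))
    {β : L | ¬ #(Iio β) < ν} ⟨β, hβ⟩
  have h1 : Iio β₀ ⊆ {β : L | #(Iio β) < ν} := by
    intro x hx
    by_contra h2
    exact hmin x h2 hx
  exact hβ₀ ((mk_le_mk_of_subset h1).trans_lt hcon)

variable (L : Type u) [LinearOrder L] [WellFoundedLT L]

/-- enumeration of representatives -/
lemma exists_enum (hL : #L = #G) (m : ℕ) :
    ∃ s : L → G, ∀ x : G, ∃ β : L, #(Iio β) < cm G m ∧ m • s β = m • x := by
  classical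
  have h1 : cm G m ≤ #L := by
    rw [hL]; exact mk_range_le
  have h2 := le_mk_small (L := L) (cm G m) h1
  unfold cm at h2
  rw [Cardinal.le_def] at h2
  obtain ⟨ι⟩ := h2
  choose p hp using fun y : Set.range (fun x : G => m • x) => y.2
  refine ⟨fun β => if h : ∃ y, (ι y : L) = β then p h.choose else 0, fun x => ?_⟩
  let y₀ : Set.range (fun x : G => m • x) := ⟨m • x, x, rfl⟩
  refine ⟨ι y₀, (ι y₀).2, ?_⟩
  have h3 : ∃ y, (ι y : L) = ι y₀ := ⟨_, rfl⟩
  beta_reduce
  rw [dif_pos h3]
  have h4 := h3.choose_spec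
  have h5 := ι.injective (Subtype.ext h4)
  have h6 := hp h3.choose
  simp only at h6
  rw [h6, h5]

/-- `μ α = max (#(Iio α)) ℵ₀` -/
def mu (α : L) : Cardinal.{u} := max #(Iio α) ℵ₀

/-- The generating system. -/
lemma exists_gen (hL : #L = #G) (hM : MCond G) :
    ∃ g : L → ℕ → G, (∀ α m, dd G (mu L α) • g α m = 0) ∧
      AddSubgroup.closure {x | ∃ α m, x = g α m} = ⊤ := by
  classical
  choose s hs using exists_enum (G := G) L hL
  have key : ∀ α m, ∃ y ∈ AddSubgroup.closure {x | ∃ β m', β < α ∧ x = s m' β},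
      dd G (mu L α) • (s m α - y) = 0 := by
    intro α m
    set d := dd G (mu L α) with hd
    rcases Nat.eq_zero_or_pos d with h0 | h0
    · exact ⟨0, zero_mem _, by rw [h0]; simp⟩
    rcases hM d h0 with h1 | h1
    · exact ⟨0, zero_mem _, h1 _⟩
    obtain ⟨β, hβ, hβ'⟩ := hs d (s m α)
    have h2 : cm G d ≤ mu L α := dd_P1 _ (le_max_right _ _)
    have h3 : β < α := by
      by_contra h3
      have h4 : #(Iio α) ≤ #(Iio β) := mk_le_mk_of_subset (Iio_subset_Iio (not_lt.1 h3))
      have h5 : ℵ₀ < cm G d := aleph0_lt_continuum.trans_le h1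
      have h6 : cm G d ≤ #(Iio α) := by
        rcases le_max_iff.1 h2 with h | h
        · exact h
        · exact absurd h5 (not_lt.2 h)
      exact absurd (hβ.trans_le (h6.trans h4)) (lt_irrefl _)
    refine ⟨s d β, AddSubgroup.subset_closure ⟨β, d, h3, rfl⟩, ?_⟩
    rw [smul_sub, hβ', sub_self]
  choose y hy hy' using key
  refine ⟨fun α m => s m α - y α m, hy', ?_⟩
  have h1 : ∀ α m, s m α ∈ AddSubgroup.closure {x | ∃ α m, x = s m α - y α m} := by
    intro α
    induction α using WellFoundedLT.induction with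
    | ind α ih =>
      intro m
      have h2 : y α m ∈ AddSubgroup.closure {x | ∃ α m, x = s m α - y α m} := by
        have h3 : AddSubgroup.closure {x | ∃ β m', β < α ∧ x = s m' β} ≤
            AddSubgroup.closure {x | ∃ α m, x = s m α - y α m} := by
          rw [AddSubgroup.closure_le]
          rintro x ⟨β, m', hβ, rfl⟩
          exact ih β hβ m'
        exact h3 (hy α m)
      have h4 := add_mem (AddSubgroup.subset_closure (k := {x | ∃ α m, x = s m α - y α m})
        ⟨α, m, rfl⟩) h2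
      rwa [sub_add_cancel] at h4
  rw [eq_top_iff]
  intro x _
  obtain ⟨β, _, hβ⟩ := hs 1 x
  rw [one_smul, one_smul] at hβ
  rw [← hβ]
  exact h1 β 1

end

end Pool.Agent.H20R3.MG
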