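import Mathlib
import Pool.Agent.H20R3.MG.Sys1

namespace Pool.Agent.H20R3.MG

open Cardinal Set

universe u

/-- The cardinality condition for an abelian M-group. -/
theorem mCond_of {G : Type u} [AddCommGroup G]
    (h : ∀ H : AddSubgroup G, H ≠ ⊤ →
      (∀ τ : TopologicalSpace G, @IsTopologicalAddGroup G τ _ → @T2Space G τ →
        @IsClosed G τ (H : Set G)) → 𝔠 ≤ #(G ⧸ H)) : MCond G := by
  intro m _
  by_cases htop : (nsmulAddMonoidHom m : G →+ G).ker = ⊤
  · left
    intro x
    have : x ∈ (nsmulAddMonoidHom m : G →+ G).ker := by rw [htop]; trivial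
    exact this
  · right
    have h1 := h _ htop (by
      intro τ h1 h2
      have h3 : (((nsmulAddMonoidHom m : G →+ G).ker : AddSubgroup G) : Set G) =
          (fun x : G => m • x) ⁻¹' {0} := by
        ext x; rfl
      rw [h3]
      let := τ
      exact isClosed_singleton.preimage (continuous_nsmul m))
    refine h1.trans (le_of_eq ?_)
    have e := (QuotientAddGroup.quotientKerEquivRange (nsmulAddMonoidHom m : G →+ G)).toEquiv
    rw [mk_congr e]
    rfl

end Pool.Agent.H20R3.MG
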