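import Mathlib
import Pool.Agent.H20R3.MG.Sys1

namespace Pool.Agent.H20R3.MG

open Cardinal Set

universe u

set_option linter.unusedSectionVars false

noncomputable section

lemma exists_rec {J G : Type*} [Zero G] [LinearOrder J] [WellFoundedLT J]
    (P : J → Set G → G → Prop) :
    ∃ x : J → G, ∀ j, (∃ y, P j (x '' Iio j) y) → P j (x '' Iio j) (x j) := by
  classical
  let Fn : ∀ j : J, (∀ j' : J, j' < j → G) → G := fun j rec =>
    if h : ∃ y, P j {z | ∃ (j' : J) (hj : j' < j), rec j' hj = z} y then h.choose else 0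
  let x : J → G := WellFounded.fix (wellFounded_lt (α := J)) Fn
  have hx : ∀ j, x j = Fn j (fun j' _ => x j') := fun j =>
    WellFounded.fix_eq (wellFounded_lt (α := J)) Fn j
  refine ⟨x, fun j hj => ?_⟩
  have h1 : {z | ∃ (j' : J) (_ : j' < j), x j' = z} = x '' Iio j := by
    ext z; simp only [Set.mem_ofPred_eq, Set.mem_image, Set.mem_Iio, exists_prop]
  have h2 : x j = Fn j (fun j' _ => x j') := hx j
  simp only [Fn] at h2
  have h3 : ∃ y, P j {z | ∃ (j' : J) (_ : j' < j), x j' = z} y := by rw [h1]; exact hj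
  rw [dif_pos h3] at h2
  have h4 : P j {z | ∃ (j' : J) (_ : j' < j), x j' = z} (x j) := by
    rw [h2]; exact h3.choose_spec
  rwa [h1] at h4

lemma mk_prod_le {A B : Type u} {μ : Cardinal.{u}} (hμ : ℵ₀ ≤ μ) (hA : #A ≤ μ) (hB : #B ≤ μ) :
    #(A × B) ≤ μ := by
  rw [mk_prod, lift_id, lift_id]
  exact (mul_le_mul' hA hB).trans (mul_eq_self hμ).le

lemma mk_union_le' {A : Type u} {S T : Set A} {μ : Cardinal.{u}} (hμ : ℵ₀ ≤ μ) (hS : #S ≤ μ)
    (hT : #T ≤ μ) : #(S ∪ T : Set A) ≤ μ :=
  (mk_union_le S T).trans ((add_le_add hS hT).trans (add_eq_self hμ).le)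

lemma mk_closure_le {G : Type u} [AddCommGroup G] (X : Set G) {μ : Cardinal.{u}} (hμ : ℵ₀ ≤ μ)
    (hX : #X ≤ μ) : #(AddSubgroup.closure X) ≤ μ := by
  rcases isEmpty_or_nonempty X with h | h
  · have : X = ∅ := Set.isEmpty_coe_sort.1 h
    subst this
    have : #(AddSubgroup.closure (∅ : Set G)) = 1 := by
      rw [AddSubgroup.closure_empty]; simp
    rw [this]
    exact one_le_aleph0.trans hμ
  · have h1 : Set.SurjOn (Finsupp.linearCombination ℤ (Subtype.val : X → G)) Set.univ
        (AddSubgroup.closure X : Set G) := by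
      intro y hy
      have h2 : y ∈ Submodule.span ℤ X := by
        rw [← Submodule.mem_toAddSubgroup, Submodule.span_int_eq_addSubgroupClosure]
        exact hy
      rw [← Subtype.range_coe (s := X), ← Finsupp.range_linearCombination] at h2
      obtain ⟨c, hc⟩ := h2
      exact ⟨c, trivial, hc⟩
    have h2 : #(AddSubgroup.closure X : Set G) ≤ #(X →₀ ℤ) := by
      have := Cardinal.mk_le_of_surjective (α := (X →₀ ℤ))
        (β := (AddSubgroup.closure X : Set G))
        (f := fun c => ⟨Finsupp.linearCombination ℤ (Subtype.val : X → G) c, by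
          have : Finsupp.linearCombination ℤ (Subtype.val : X → G) c ∈
              LinearMap.range (Finsupp.linearCombination ℤ (Subtype.val : X → G)) := ⟨c, rfl⟩
          rw [Finsupp.range_linearCombination, Subtype.range_coe] at this
          rw [← Submodule.mem_toAddSubgroup, Submodule.span_int_eq_addSubgroupClosure] at this
          exact this⟩) (by
          rintro ⟨y, hy⟩
          obtain ⟨c, _, hc⟩ := h1 hy
          exact ⟨c, Subtype.ext hc⟩)
      exact this
    refine h2.trans ?_
    have h3 : #(X →₀ ℤ) = max #X ℵ₀ := by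
      rw [Cardinal.mk_finsupp_lift_of_infinite']
      simp
    rw [h3]
    exact max_le hX hμ

variable (G : Type u) [AddCommGroup G] (L : Type u) [LinearOrder L] [WellFoundedLT L]

/-- genericity -/
def Gen (d q : ℕ) (Y : AddSubgroup G) (y : G) : Prop :=
  (d ≠ 0 → addOrderOf y = d) ∧ (d = 0 → addOrderOf y = 0 ∨ q < addOrderOf y) ∧
    ∀ m : ℤ, m • y ∈ Y → m • y = 0

/-- index set for the recursion -/
abbrev JJ := L ×ₗ (L ×ₗ (ℕ ×ₗ ℕ))

variable {L}

/-- constructor -/
def mkJ (s α : L) (m k : ℕ) : JJ L := toLex (s, toLex (α, toLex (m, k)))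

/-- stage -/
def st (j : JJ L) : L := (ofLex j).1
/-- first index -/
def al (j : JJ L) : L := (ofLex (ofLex j).2).1
/-- second index -/
def em (j : JJ L) : ℕ := (ofLex (ofLex (ofLex j).2).2).1
/-- third index -/
def ka (j : JJ L) : ℕ := (ofLex (ofLex (ofLex j).2).2).2

@[simp] lemma st_mkJ (s α : L) (m k : ℕ) : st (mkJ s α m k) = s := rfl
@[simp] lemma al_mkJ (s α : L) (m k : ℕ) : al (mkJ s α m k) = α := rfl
@[simp] lemma em_mkJ (s α : L) (m k : ℕ) : em (mkJ s α m k) = m := rfl
@[simp] lemma ka_mkJ (s α : L) (m k : ℕ) : ka (mkJ s α m k) = k := rfl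
lemma mkJ_eta (j : JJ L) : mkJ (st j) (al j) (em j) (ka j) = j := rfl

lemma st_mono {j j' : JJ L} (h : j' ≤ j) : st j' ≤ st j := by
  rw [Prod.Lex.le_iff] at h
  rcases h with h | h
  · exact h.le
  · exact h.1.le

/-- the threshold condition -/
def Thr (α s : L) : Prop := ∀ m : ℕ, 1 ≤ m → m ∣ dd G (mu L α) → m ≠ dd G (mu L α) →
  mu L s < cm G m

/-- validity -/
def Valid (j : JJ L) : Prop := al j ≤ st j ∧ Thr G (al j) (st j)

variable {G}

/-- the group generated by the available elements at stage `s` -/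
def YY (g : L → ℕ → G) (s : L) (X : Set G) : AddSubgroup G :=
  AddSubgroup.closure (X ∪ {x | ∃ β m, β ≤ s ∧ x = g β m})

lemma mk_Iic_le (s : L) : #(Iic s) ≤ mu L s := by
  have h1 : Iic s = Iio s ∪ {s} := by
    ext x; simp [le_iff_lt_or_eq]
  rw [h1]
  exact mk_union_le' (le_max_right _ _) (le_max_left _ _)
    (by rw [mk_singleton]; exact one_le_aleph0.trans (le_max_right _ _))

lemma mk_YY_le (g : L → ℕ → G) (s : L) (X : Set G) (hX : #X ≤ mu L s) :
    #(YY g s X) ≤ mu L s := by
  have hinf : ℵ₀ ≤ mu L s := le_max_right _ _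
  refine mk_closure_le _ hinf (mk_union_le' hinf hX ?_)
  have h1 : {x | ∃ β m, β ≤ s ∧ x = g β m} ⊆
      Set.range (fun p : Iic s × ULift.{u} ℕ => g p.1 p.2.down) := by
    rintro x ⟨β, m, hβ, rfl⟩
    exact ⟨(⟨β, hβ⟩, ⟨m⟩), rfl⟩
  refine (mk_le_mk_of_subset h1).trans (mk_range_le.trans ?_)
  exact mk_prod_le hinf (mk_Iic_le s) (by simpa using hinf)

variable (L) in
/-- the recursion -/
lemma exists_x (hL : ∀ α : L, #(Iio α) < #G) (hinf : ℵ₀ < #G) (g : L → ℕ → G) :
    ∃ x : JJ L → G, ∀ j, Valid G j →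
      Gen G (dd G (mu L (al j))) (ka j) (YY g (st j) (x '' Iio j)) (x j) := by
  classical
  obtain ⟨x, hx⟩ := exists_rec (J := JJ L) (G := G) (fun j X y =>
    if Valid G j then Gen G (dd G (mu L (al j))) (ka j) (YY g (st j) X) y else y = 0)
  have key : ∀ j, (if Valid G j then Gen G (dd G (mu L (al j))) (ka j)
      (YY g (st j) (x '' Iio j)) (x j) else x j = 0) := by
    intro j
    induction j using WellFoundedLT.induction with
    | ind j ih =>
      apply hx
      by_cases hv : Valid G j
      · simp only [if_pos hv]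
        have hinf' : ℵ₀ ≤ mu L (st j) := le_max_right _ _
        have h1 : #(x '' Iio j) ≤ mu L (st j) := by
          have h2 : x '' Iio j ⊆ (x '' {j' | j' < j ∧ Valid G j'}) ∪ {0} := by
            rintro _ ⟨j', hj', rfl⟩
            by_cases hv' : Valid G j'
            · exact Or.inl ⟨j', ⟨hj', hv'⟩, rfl⟩
            · right
              have := ih j' hj'
              rw [if_neg hv'] at this
              exact this
          refine (mk_le_mk_of_subset h2).trans (mk_union_le' hinf' (mk_image_le.trans ?_) (by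
            rw [mk_singleton]; exact one_le_aleph0.trans hinf'))
          let φ : {j' | j' < j ∧ Valid G j'} → (Iic (st j)) × (Iic (st j)) × ULift.{u} (ℕ × ℕ) :=
            fun j' => (⟨st j'.1, st_mono j'.2.1.le⟩,
              ⟨al j'.1, j'.2.2.1.trans (st_mono j'.2.1.le)⟩, ⟨em j'.1, ka j'.1⟩)
          have hφ : Function.Injective φ := by
            rintro ⟨a, ha⟩ ⟨b, hb⟩ hab
            simp only [φ, Prod.mk.injEq, ULift.up.injEq] at hab
            obtain ⟨h1, h2, h3, h4⟩ := hab
            replace h1 := congrArg Subtype.val h1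
            replace h2 := congrArg Subtype.val h2
            simp only at h1 h2
            apply Subtype.ext
            show a = b
            rw [← mkJ_eta a, ← mkJ_eta b, h1, h2, h3, h4]
          refine (mk_le_of_injective hφ).trans ?_
          exact mk_prod_le hinf' (mk_Iic_le _) (mk_prod_le hinf' (mk_Iic_le _)
            (by simpa using hinf'))
        have hmu : mu L (al j) < #G := max_lt (hL _) hinf
        have hdle : mu L (al j) ≤ mu L (st j) := by
          refine max_le_max ?_ le_rfl
          exact mk_le_mk_of_subset (Iio_subset_Iio hv.1)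
        obtain ⟨y, hy1, hy2, hy3⟩ := exists_generic (YY g (st j) (x '' Iio j)) (mu L (st j)) hinf'
          (mk_YY_le g _ _ h1) (dd G (mu L (al j)))
          ((dd_P1 (G := G) (mu L (al j)) (le_max_right _ _)).trans hdle)
          (fun m h1 h2 h3 => hv.2 m h1 h2 h3)
          (dd_P3 _ hmu (le_max_right _ _)) (ka j)
        exact ⟨y, hy1, hy2, hy3⟩
      · simp only [if_neg hv]
        exact ⟨0, rfl⟩
  refine ⟨x, fun j hv => ?_⟩
  have := key j
  rwa [if_pos hv] at this

end

end Pool.Agent.H20R3.MG
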