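import Mathlib
import Pool.Agent.H20R3.MG.Sys2

namespace Pool.Agent.H20R3.MG

open Cardinal Set

universe u

noncomputable section

variable {G : Type u} [AddCommGroup G] {L : Type u} [LinearOrder L] [WellFoundedLT L]

lemma mk_thr (hL : #L = #G) (hLs : ∀ α : L, #(Iio α) < #G) (hc : 𝔠 ≤ #G) (hM : MCond G)
    (α : L) : 𝔠 ≤ #{s : L | α ≤ s ∧ Thr G α s} := by
  have hmu : mu L α < #G := max_lt (hLs _) (aleph0_lt_continuum.trans_le hc)
  have hd1 := dd_P3 (G := G) (mu L α) hmu (le_max_right _ _)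
  let A : Set ℕ := {m | 1 ≤ m ∧ m ∣ dd G (mu L α) ∧ m ≠ dd G (mu L α)}
  have hne : ((cm G) '' A).Nonempty := ⟨_, 1, ⟨le_rfl, one_dvd _, fun h => hd1 h.symm⟩, rfl⟩
  obtain ⟨m₀, hm₀, hν⟩ := csInf_mem hne
  have hmin : ∀ m ∈ A, cm G m₀ ≤ cm G m := fun m hm => by
    rw [hν]; exact csInf_le' ⟨m, hm, rfl⟩
  have h1 : mu L α < cm G m₀ := dd_P2 _ _ hm₀.1 hm₀.2.1 hm₀.2.2
  have h2 : ℵ₀ < cm G m₀ := (le_max_right _ _).trans_lt h1
  have h3 : 𝔠 ≤ cm G m₀ := by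
    rcases hM m₀ hm₀.1 with h | h
    · exfalso
      have : cm G m₀ ≤ 1 := by
        unfold cm
        have : (Set.range fun x : G => m₀ • x) ⊆ {0} := by
          rintro _ ⟨x, rfl⟩; exact h x
        exact (mk_le_mk_of_subset this).trans (by simp)
      exact absurd (h2.trans_le this) (not_lt.2 one_le_aleph0)
    · exact h
  have h4 : cm G m₀ ≤ #L := by rw [hL]; exact mk_range_le
  have h5 := le_mk_small (L := L) (cm G m₀) h4
  have h6 : {β : L | #(Iio β) < cm G m₀} ⊆ Iio α ∪ {s : L | α ≤ s ∧ Thr G α s} := by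
    intro β hβ
    rcases lt_or_ge β α with h | h
    · exact Or.inl h
    · right
      refine ⟨h, fun m hm1 hm2 hm3 => ?_⟩
      exact (max_lt hβ h2).trans_le (hmin m ⟨hm1, hm2, hm3⟩)
  have h7 := h5.trans ((mk_le_mk_of_subset h6).trans (mk_union_le _ _))
  by_contra hcon
  push Not at hcon
  have h8 : #(Iio α) < cm G m₀ := (le_max_left _ _).trans_lt h1
  exact absurd h7 (not_le.2 (add_lt_of_lt h2.le h8 (hcon.trans_le h3)))

omit [WellFoundedLT L] in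
lemma exists_tau (α : L) (m k : ℕ) (x : JJ L → G)
    (h : 𝔠 ≤ #{s : L | α ≤ s ∧ Thr G α s}) :
    ∃ (n : ℕ) (t : T → L), Function.Injective t ∧ ∀ i, α ≤ t i ∧ Thr G α (t i) ∧
      addOrderOf (x (mkJ (t i) α m k)) = n := by
  let f : {s : L | α ≤ s ∧ Thr G α s} → ULift.{u} ℕ := fun s => ⟨addOrderOf (x (mkJ s.1 α m k))⟩
  have hcof : #(ULift.{u} ℕ) < (𝔠 : Cardinal.{u}).ord.cof := by
    have h1 : #(ULift.{u} ℕ) = ℵ₀ := by simp
    rw [h1, ← two_power_aleph0]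
    exact lt_cof_ord_power le_rfl (by norm_num)
  obtain ⟨⟨n⟩, hn⟩ := infinite_pigeonhole_card f 𝔠 h aleph0_le_continuum hcof
  have hT : Cardinal.lift.{u} #T = 𝔠 := by
    rw [mk_Ioc_real one_pos]; simp
  have h2 : Cardinal.lift.{u} #T ≤ Cardinal.lift.{0} #(f ⁻¹' {⟨n⟩}) := by
    rw [hT, Cardinal.lift_id'.{0, u}]; exact hn
  obtain ⟨e⟩ := Cardinal.lift_mk_le'.1 h2
  refine ⟨n, fun i => ((e i).1 : L), ?_, fun i => ⟨(e i).1.2.1, (e i).1.2.2, ?_⟩⟩
  · intro a b hab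
    exact e.injective (Subtype.ext (Subtype.ext hab))
  · have := (e i).2
    simp only [f, Set.mem_preimage, Set.mem_singleton_iff, ULift.up.injEq] at this
    exact this

end

end Pool.Agent.H20R3.MG
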