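import Mathlib
import Pool.Agent.H20R3.MG.Sys3

namespace Pool.Agent.H20R3.MG

open Cardinal Set

universe u

noncomputable section

lemma mem_of_sum_mem {ι G : Type*} [DecidableEq ι] [AddCommGroup G] (Y : AddSubgroup G)
    (S : Finset ι) (f : ι → G) (i : ι) (hi : i ∈ S) (hs : ∑ j ∈ S, f j ∈ Y)
    (h : ∀ j ∈ S, j ≠ i → f j ∈ Y) : f i ∈ Y := by
  have h1 := Finset.add_sum_erase S f hi
  have h2 : ∑ j ∈ S.erase i, f j ∈ Y :=
    Y.sum_mem fun j hj => h j (Finset.mem_of_mem_erase hj) (Finset.ne_of_mem_erase hj)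
  have h3 : f i = (∑ j ∈ S, f j) - ∑ j ∈ S.erase i, f j := by rw [← h1]; abel
  rw [h3]
  exact Y.sub_mem hs h2

theorem hasSystem (G : Type u) [AddCommGroup G] (hM : MCond G) : HasSystem G := by
  classical
  rcases hM 1 le_rfl with htriv | hc
  · -- trivial group
    refine ⟨PEmpty, inferInstance, PEmpty.elim, PEmpty.elim, PEmpty.elim, PEmpty.elim,
      fun a => a.elim, fun a => a.elim, fun a => a.elim, ?_, fun _ _ _ _ _ a => a.elim⟩
    rw [eq_top_iff]
    intro x _
    have := htriv x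
    rw [one_smul] at this
    rw [this]; exact zero_mem _
  rw [cm_one] at hc
  let L : Type u := (#G).ord.ToType
  have hL : #L = #G := mk_ord_toType _
  have hLs : ∀ α : L, #(Iio α) < #G := fun α => by
    have := mk_Iio_lt α (by rw [hL]; simp [L])
    rwa [hL] at this
  obtain ⟨g, hg1, hg2⟩ := exists_gen (G := G) L hL hM
  obtain ⟨x, hx⟩ := exists_x L hLs (aleph0_lt_continuum.trans_le hc) g
  choose nn tt htt htt' using fun (α : L) (m k : ℕ) =>
    exists_tau α m k x (mk_thr hL hLs hc hM α)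
  have hgen : ∀ (α : L) (m k : ℕ) (t : T),
      Gen G (dd G (mu L α)) k (YY g (tt α m k t) (x '' Iio (mkJ (tt α m k t) α m k)))
        (x (mkJ (tt α m k t) α m k)) := fun α m k t =>
    hx (mkJ (tt α m k t) α m k) ⟨(htt' α m k t).1, (htt' α m k t).2.1⟩
  have hord : ∀ (α : L) (m k : ℕ) (t : T),
      addOrderOf (x (mkJ (tt α m k t) α m k)) = nn α m k := fun α m k t => (htt' α m k t).2.2
  let t₀ : T := ⟨1, one_pos, le_rfl⟩
  -- the index of a generic element
  let J : L ×ₗ ℕ → I → JJ L := fun a i =>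
    mkJ (tt (ofLex a).1 (ofLex a).2 i.1 i.2) (ofLex a).1 (ofLex a).2 i.1
  have hJinj : ∀ a i a' i', J a i = J a' i' → a = a' ∧ i = i' := by
    intro a i a' i' h
    have h1 : (ofLex a).1 = (ofLex a').1 := congrArg al h
    have h2 : (ofLex a).2 = (ofLex a').2 := congrArg em h
    have h3 : i.1 = i'.1 := congrArg ka h
    have h4 : tt (ofLex a).1 (ofLex a).2 i.1 i.2 = tt (ofLex a').1 (ofLex a').2 i'.1 i'.2 :=
      congrArg st h
    have ha : a = a' := Prod.ext h1 h2
    subst ha
    rw [← h3] at h4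
    exact ⟨rfl, Prod.ext h3 (htt _ _ _ h4)⟩
  refine ⟨L ×ₗ ℕ, inferInstance, fun a => dd G (mu L (ofLex a).1),
    fun a k => nn (ofLex a).1 (ofLex a).2 k, fun a => g (ofLex a).1 (ofLex a).2,
    fun a i => x (J a i), ?_, ?_, ?_, ?_, ?_⟩
  · intro a
    unfold Adm
    by_cases h0 : dd G (mu L (ofLex a).1) = 0
    · left
      refine ⟨h0, fun k => ?_⟩
      have := (hgen (ofLex a).1 (ofLex a).2 k t₀).2.1 h0
      rw [hord] at this
      exact this
    · right
      refine ⟨Nat.one_le_iff_ne_zero.2 h0, fun k => ?_⟩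
      have := (hgen (ofLex a).1 (ofLex a).2 k t₀).1 h0
      rw [hord] at this
      exact this
  · intro a
    exact hg1 _ _
  · intro a i
    show nn (ofLex a).1 (ofLex a).2 i.1 • x (J a i) = 0
    rw [← hord (ofLex a).1 (ofLex a).2 i.1 i.2]
    exact addOrderOf_nsmul_eq_zero _
  · rw [← hg2]
    congr 1
    ext y
    constructor
    · rintro ⟨a, rfl⟩
      exact ⟨_, _, rfl⟩
    · rintro ⟨α, m, rfl⟩
      exact ⟨toLex (α, m), rfl⟩
  · intro z c S hS hrel a i hai
    by_contra hcon
    push Not at hcon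
    -- the finite set of bad indices
    let B : Finset (Σ _ : L ×ₗ ℕ, I) := (S.sigma fun b => (c b).support).filter
      fun p => ¬ ((nn (ofLex p.1).1 (ofLex p.1).2 p.2.1 : ℕ) : ℤ) ∣ c p.1 p.2
    have hB : ∀ b i', (⟨b, i'⟩ : Σ _ : L ×ₗ ℕ, I) ∈ B ↔
        ¬ ((nn (ofLex b).1 (ofLex b).2 i'.1 : ℕ) : ℤ) ∣ c b i' := by
      intro b i'
      simp only [B, Finset.mem_filter, Finset.mem_sigma, and_iff_right_iff_imp]
      intro h
      constructor
      · by_contra hb
        rw [(hS b hb).2] at h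
        exact h (dvd_zero _)
      · rw [Finsupp.mem_support_iff]
        intro h0
        rw [h0] at h
        exact h (dvd_zero _)
    have hBne : B.Nonempty := ⟨⟨a, i⟩, (hB a i).2 hai⟩
    obtain ⟨⟨b, i'⟩, hb, hmax⟩ := B.exists_max_image (fun p => J p.1 p.2) hBne
    have hbad := (hB b i').1 hb
    have hmax' : ∀ b' j', ¬ ((nn (ofLex b').1 (ofLex b').2 j'.1 : ℕ) : ℤ) ∣ c b' j' →
        J b' j' ≤ J b i' := fun b' j' h => hmax ⟨b', j'⟩ ((hB b' j').2 h)
    -- stage bound
    have hst : (ofLex a).1 ≤ st (J b i') := by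
      refine le_trans ?_ (st_mono (hmax' a i hai))
      exact (htt' (ofLex a).1 (ofLex a).2 i.1 i.2).1
    set Y := YY g (st (J b i')) (x '' Iio (J b i')) with hY
    have hgY : ∀ b' : L ×ₗ ℕ, z b' • g (ofLex b').1 (ofLex b').2 ∈ Y := by
      intro b'
      rcases lt_or_ge a b' with h | h
      · have h1 := (hcon b' h).1
        obtain ⟨q, hq⟩ := h1
        rw [hq, mul_comm, mul_smul, natCast_zsmul, hg1, smul_zero]
        exact zero_mem _
      · refine Y.zsmul_mem (AddSubgroup.subset_closure (Or.inr ?_)) _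
        refine ⟨_, _, ?_, rfl⟩
        refine le_trans ?_ hst
        rw [Prod.Lex.le_iff] at h
        rcases h with h | h
        · exact h.le
        · exact h.1.le
    have hxY : ∀ b' j', (b', j') ≠ (b, i') → c b' j' • x (J b' j') ∈ Y := by
      intro b' j' hne
      by_cases hd : ((nn (ofLex b').1 (ofLex b').2 j'.1 : ℕ) : ℤ) ∣ c b' j'
      · obtain ⟨q, hq⟩ := hd
        rw [hq, mul_comm, mul_smul, natCast_zsmul,
          ← hord (ofLex b').1 (ofLex b').2 j'.1 j'.2]
        have : addOrderOf (x (mkJ (tt (ofLex b').1 (ofLex b').2 j'.1 j'.2) (ofLex b').1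
            (ofLex b').2 j'.1)) • x (J b' j') = 0 := addOrderOf_nsmul_eq_zero _
        rw [this, smul_zero]
        exact zero_mem _
      · refine Y.zsmul_mem (AddSubgroup.subset_closure (Or.inl ?_)) _
        refine ⟨_, ?_, rfl⟩
        refine lt_of_le_of_ne (hmax' b' j' hd) fun h => hne ?_
        obtain ⟨h1, h2⟩ := hJinj _ _ _ _ h
        rw [h1, h2]
    have hbS : b ∈ S := by
      by_contra hbS
      rw [(hS b hbS).2] at hbad
      exact hbad (dvd_zero _)
    have hi'S : i' ∈ (c b).support := by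
      rw [Finsupp.mem_support_iff]
      intro h0
      rw [h0] at hbad
      exact hbad (dvd_zero _)
    have h1 : z b • g (ofLex b).1 (ofLex b).2 + ((c b).sum fun i m => m • x (J b i)) ∈ Y := by
      refine mem_of_sum_mem Y S (fun b => z b • g (ofLex b).1 (ofLex b).2 +
        ((c b).sum fun i m => m • x (J b i))) b hbS ?_ ?_
      · have : ∑ a ∈ S, (z a • g (ofLex a).1 (ofLex a).2 +
            ((c a).sum fun i m => m • x (J a i))) = 0 := hrel
        rw [this]; exact zero_mem _
      · intro b' _ hne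
        refine Y.add_mem (hgY b') (Y.sum_mem fun j' _ => ?_)
        exact hxY b' j' fun h => hne (congrArg Prod.fst h)
    have h2 : ((c b).sum fun i m => m • x (J b i)) ∈ Y := by
      have := Y.sub_mem h1 (hgY b)
      rwa [add_sub_cancel_left] at this
    have h3 : c b i' • x (J b i') ∈ Y := by
      refine mem_of_sum_mem Y (c b).support (fun j => c b j • x (J b j)) i' hi'S h2 ?_
      intro j' _ hne
      exact hxY b j' fun h => hne (congrArg Prod.snd h)
    have h4 := (hgen (ofLex b).1 (ofLex b).2 i'.1 i'.2).2.2 (c b i') h3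
    have h5 := addOrderOf_dvd_iff_zsmul_eq_zero.2 h4
    rw [hord] at h5
    exact hbad h5

end

end Pool.Agent.H20R3.MG
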